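import Pool.Agent.Q153.SU.Count

set_option autoImplicit false

/-! Project SU (helper41), job T6 (helper153): the counting lemma, conclusion. -/

namespace Pool.Agent.Q153.SU

open Finset Polynomial
open Pool.Agent.Q41.SU (ev S_count)

universe u

variable {k : Type u} [Field k]

theorem relP_C_monic {A : k[X]} (hA : A ≠ 0) {M : k[X][X]} (hM : M.Monic) :
    IsRelPrime (C A) M := by
  intro d h1 h2
  have hd0 : d.natDegree = 0 := by
    have h3 := natDegree_le_of_dvd h1 (C_ne_zero.mpr hA)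
    rw [natDegree_C] at h3
    omega
  obtain ⟨a, rfl⟩ := natDegree_eq_zero.mp hd0
  obtain ⟨Q, hQ⟩ := h2
  have h3 : M.leadingCoeff = a * Q.leadingCoeff := by
    rw [hQ, leadingCoeff_mul, leadingCoeff_C]
  rw [hM.leadingCoeff] at h3
  exact (IsUnit.of_mul_eq_one _ h3.symm).map C

theorem prod_dvd_of {R ι : Type*} [CommRing R] (S : Finset ι) (f : ι → R) (e : ι → ℕ) (F : R)
    (hc : ∀ i ∈ S, ∀ j ∈ S, i ≠ j → IsCoprime (f i) (f j)) (h : ∀ i ∈ S, f i ^ e i ∣ F) :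
    ∏ i ∈ S, f i ^ e i ∣ F :=
  Finset.prod_dvd_of_coprime (fun i hi j hj hij => (hc i hi j hj hij).pow) h

theorem cop_C (a b : k) (h : a ≠ b) : IsCoprime (C (X - C a) : k[X][X]) (C (X - C b)) :=
  (isCoprime_X_sub_C_of_isUnit_sub (sub_ne_zero_of_ne h).isUnit).map (C : k[X] →+* k[X][X])

theorem cop_X (a b : k) (h : a ≠ b) : IsCoprime (X - C (C a) : k[X][X]) (X - C (C b)) := by
  refine isCoprime_X_sub_C_of_isUnit_sub ?_
  rw [← C_sub]
  exact (sub_ne_zero_of_ne h).isUnit.map C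

/-- the order of the vertical part -/
theorem ex_A (S₀ : Finset k) (v : k → ℕ) (t₀ : k) (ht : t₀ ∈ S₀) :
    Ex (v t₀) (∏ t ∈ S₀, ((X : k[X]) + C (t₀ - t)) ^ v t) := by
  classical
  have h : Ex (∑ t ∈ S₀, if t₀ = t then v t else 0)
      (∏ t ∈ S₀, ((X : k[X]) + C (t₀ - t)) ^ v t) := by
    refine Ex.prod S₀ _ _ fun t _ => ?_
    by_cases he : t₀ = t
    · rw [if_pos he, he, sub_self, C_0, add_zero]
      exact ⟨1, by rw [mul_one], by rw [coeff_one_zero]; exact one_ne_zero⟩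
    · rw [if_neg he]
      have h1 : Ex 0 ((X : k[X]) + C (t₀ - t)) := by
        refine Ex.of_coeff ?_
        rw [coeff_add, coeff_X_zero, coeff_C_zero, zero_add]
        exact sub_ne_zero_of_ne he
      simpa using h1.pow (v t)
  rwa [Finset.sum_ite_eq, if_pos ht] at h

/-- the order of the horizontal part -/
theorem ex_B (S₀ : Finset k) (h : k → ℕ) (Θ : ℕ) (hΘ : 1 ≤ Θ) (t₀ c' : k) (hc : c' ≠ 0)
    (ht : t₀ ∈ S₀) :
    Ex (h t₀ * Θ) (∏ t ∈ S₀, (C c' * (X : k[X]) ^ Θ + C (t₀ - t)) ^ h t) := by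
  classical
  have h1 : Ex (∑ t ∈ S₀, if t₀ = t then h t * Θ else 0)
      (∏ t ∈ S₀, (C c' * (X : k[X]) ^ Θ + C (t₀ - t)) ^ h t) := by
    refine Ex.prod S₀ _ _ fun t _ => ?_
    by_cases he : t₀ = t
    · rw [if_pos he, he, sub_self, C_0, add_zero]
      have h2 : Ex Θ (C c' * (X : k[X]) ^ Θ) :=
        ⟨C c', by rw [mul_comm], by rw [coeff_C_zero]; exact hc⟩
      exact h2.pow (h t)
    · rw [if_neg he]
      have h2 : Ex 0 (C c' * (X : k[X]) ^ Θ + C (t₀ - t)) := by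
        refine Ex.of_coeff ?_
        rw [coeff_add, coeff_C_mul, coeff_X_pow, if_neg (by omega), mul_zero, coeff_C_zero,
          zero_add]
        exact sub_ne_zero_of_ne he
      simpa using h2.pow (h t)
  rwa [Finset.sum_ite_eq, if_pos ht] at h1

/-- the order of the diagonal part -/
theorem ex_D (c₀ Θ : ℕ) (hΘ : 2 ≤ Θ) (c' : k) :
    Ex c₀ ((C c' * (X : k[X]) ^ Θ - X) ^ c₀) := by
  have h1 : Ex 1 (C c' * (X : k[X]) ^ Θ - X) := by
    refine ⟨C c' * X ^ (Θ - 1) - 1, ?_, ?_⟩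
    · obtain ⟨n, rfl⟩ : ∃ n, Θ = n + 1 := ⟨Θ - 1, by omega⟩
      rw [Nat.add_sub_cancel]
      ring
    · rw [coeff_sub, coeff_C_mul, coeff_X_pow, if_neg (by omega), mul_zero, coeff_one_zero,
        zero_sub]
      exact neg_ne_zero.mpr one_ne_zero
  simpa using h1.pow c₀

theorem evh_A (S₀ : Finset k) (v : k → ℕ) (t₀ : k) (y : k[X]) :
    evh (C t₀ + X) y (C (∏ t ∈ S₀, (X - C t) ^ v t)) =
      ∏ t ∈ S₀, ((X : k[X]) + C (t₀ - t)) ^ v t := by
  rw [evh_C, map_prod]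
  refine Finset.prod_congr rfl fun t _ => ?_
  rw [map_pow, map_sub, aeval_X, aeval_C, C_sub]
  congr 1
  change C t₀ + X - C t = _
  ring

theorem evh_B (S₀ : Finset k) (h : k → ℕ) (t₀ : k) (x z : k[X]) :
    evh x (C t₀ + z) (∏ t ∈ S₀, (X - C (C t)) ^ h t) =
      ∏ t ∈ S₀, (z + C (t₀ - t)) ^ h t := by
  rw [map_prod]
  refine Finset.prod_congr rfl fun t _ => ?_
  rw [map_pow, map_sub, evh_X, evh_C, aeval_C, C_sub]
  congr 1
  change C t₀ + z - C t = _
  ring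

theorem evh_D (c₀ : ℕ) (t₀ : k) (z : k[X]) :
    evh (C t₀ + X) (C t₀ + z) ((X - C X) ^ c₀) = (z - X) ^ c₀ := by
  rw [map_pow, map_sub, evh_X, evh_C, aeval_X]
  congr 1
  ring

theorem shift_back (G : k[X]) (t₀ : k) (m : ℕ) (h : X ^ m ∣ G.comp (X + C t₀)) :
    (X - C t₀) ^ m ∣ G := by
  obtain ⟨Q, hQ⟩ := h
  refine ⟨Q.comp (X - C t₀), ?_⟩
  have h1 := congrArg (fun P : k[X] => P.comp (X - C t₀)) hQ
  simp only [comp_assoc, mul_comp, pow_comp, X_comp, add_comp, C_comp, sub_add_cancel,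
    comp_X] at h1
  exact h1

theorem natDegree_B (S₀ : Finset k) (h : k → ℕ) :
    (∏ t ∈ S₀, (X - C (C t) : k[X][X]) ^ h t).natDegree = ∑ t ∈ S₀, h t := by
  rw [natDegree_prod_of_monic _ _ fun t _ => (monic_X_sub_C _).pow _]
  refine Finset.sum_congr rfl fun t _ => ?_
  rw [(monic_X_sub_C _).natDegree_pow, natDegree_X_sub_C, mul_one]

theorem natDegree_A (S₀ : Finset k) (v : k → ℕ) :
    (∏ t ∈ S₀, (X - C t : k[X]) ^ v t).natDegree = ∑ t ∈ S₀, v t := by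
  rw [natDegree_prod_of_monic _ _ fun t _ => (monic_X_sub_C _).pow _]
  refine Finset.sum_congr rfl fun t _ => ?_
  rw [(monic_X_sub_C _).natDegree_pow, natDegree_X_sub_C, mul_one]

theorem natDegree_swap_D (c₀ : ℕ) :
    (Bivariate.swap ((X - C X : k[X][X]) ^ c₀)).natDegree = c₀ := by
  rw [map_pow, map_sub, Bivariate.swap_X, Bivariate.swap_Y, natDegree_pow]
  have h1 : (C X - X : k[X][X]) = -(X - C X) := by ring
  rw [h1, natDegree_neg, natDegree_X_sub_C, mul_one]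

theorem swap_ne {F : k[X][X]} (h : F ≠ 0) : Bivariate.swap F ≠ 0 := by
  intro h0
  exact h ((map_eq_zero_iff _ (Bivariate.swap (R := k)).injective).mp h0)

/-- **(T6) The counting lemma.** -/
theorem count : S_count.{u} := by
  intro k _ _ F hF D₁ D₂ hD₂ hD₁ S S₀ hS v h W Θ c hΘ hv hh hc hW
  classical
  -- the power of the diagonal
  obtain ⟨c₀, hc₀, hc₁, hc₂⟩ : ∃ c₀, c₀ ≤ c ∧ (X - C X : k[X][X]) ^ c₀ ∣ F ∧
      ¬ (X - C X : k[X][X]) ^ (c₀ + 1) ∣ F := by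
    have hex : ∃ n, ¬ (X - C X : k[X][X]) ^ (n + 1) ∣ F := ⟨c, hc⟩
    refine ⟨Nat.find hex, Nat.find_min' hex hc, ?_, Nat.find_spec hex⟩
    rcases Nat.eq_zero_or_pos (Nat.find hex) with h0 | h0
    · rw [h0, pow_zero]
      exact one_dvd _
    · have h1 := Nat.find_min hex (m := Nat.find hex - 1) (by omega)
      rw [not_not, Nat.sub_add_cancel h0] at h1
      exact h1
  set A : k[X] := ∏ t ∈ S₀, (X - C t) ^ v t with hA
  set B : k[X][X] := ∏ t ∈ S₀, (X - C (C t)) ^ h t with hB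
  set D : k[X][X] := (X - C X) ^ c₀ with hD
  have hAm : A.Monic := monic_prod_of_monic _ _ fun t _ => (monic_X_sub_C t).pow _
  have hBm : B.Monic := monic_prod_of_monic _ _ fun t _ => (monic_X_sub_C (C t)).pow _
  have hDm : D.Monic := (monic_X_sub_C X).pow _
  have hAF : C A ∣ F := by
    have h1 : C A = ∏ t ∈ S₀, (C (X - C t) : k[X][X]) ^ v t := by
      rw [hA, map_prod]
      exact Finset.prod_congr rfl fun t _ => by rw [C_pow]
    rw [h1]
    refine prod_dvd_of S₀ _ v F (fun i _ j _ hij => cop_C i j hij) fun i hi => ?_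
    rw [← C_pow]
    exact hv i hi
  have hBF : B ∣ F := prod_dvd_of S₀ _ h F (fun i _ j _ hij => cop_X i j hij) hh
  have hBD : IsRelPrime B D := by
    have h1 : IsRelPrime (X - C X : k[X][X]) B := by
      rw [(irreducible_X_sub_C (X : k[X])).isRelPrime_iff_not_dvd, dvd_iff_isRoot]
      show ¬ B.eval X = 0
      rw [hB, eval_prod, Finset.prod_eq_zero_iff]
      rintro ⟨t, _, h1⟩
      rw [eval_pow, eval_sub, eval_X, eval_C] at h1
      exact (monic_X_sub_C t).ne_zero (eq_zero_of_pow_eq_zero h1)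
    exact (h1.pow_left).symm
  have hABD : C A * (B * D) ∣ F :=
    (relP_C_monic hAm.ne_zero (hBm.mul hDm)).mul_dvd hAF (hBD.mul_dvd hBF hc₁)
  obtain ⟨F₁, hF₁⟩ := hABD
  have hF₁0 : F₁ ≠ 0 := by
    rintro rfl
    rw [mul_zero] at hF₁
    exact hF hF₁
  have hG0 : F₁.eval X ≠ 0 := by
    intro h0
    have h1 : (X - C X : k[X][X]) ∣ F₁ := dvd_iff_isRoot.mpr h0
    apply hc₂
    rw [hF₁, pow_succ, ← hD]
    refine Dvd.dvd.trans (mul_dvd_mul_left D h1) ?_
    exact ⟨C A * B, by ring⟩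
  -- degrees
  have hdeg1 : F.natDegree = ∑ t ∈ S₀, h t + c₀ + F₁.natDegree := by
    rw [hF₁, natDegree_mul (mul_ne_zero (C_ne_zero.mpr hAm.ne_zero)
      (mul_ne_zero hBm.ne_zero hDm.ne_zero)) hF₁0,
      natDegree_mul (C_ne_zero.mpr hAm.ne_zero) (mul_ne_zero hBm.ne_zero hDm.ne_zero),
      natDegree_mul hBm.ne_zero hDm.ne_zero, natDegree_C, zero_add, hB, natDegree_B, hD,
      (monic_X_sub_C X).natDegree_pow, natDegree_X_sub_C, mul_one]
  have hdeg2 : (Bivariate.swap F).natDegree = ∑ t ∈ S₀, v t +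
      ((Bivariate.swap B).natDegree + c₀) + (Bivariate.swap F₁).natDegree := by
    have hAs : Bivariate.swap (C A) ≠ 0 := swap_ne (C_ne_zero.mpr hAm.ne_zero)
    have hBs := swap_ne hBm.ne_zero
    have hDs := swap_ne hDm.ne_zero
    rw [hF₁, map_mul, map_mul, map_mul, natDegree_mul (mul_ne_zero hAs (mul_ne_zero hBs hDs))
      (swap_ne hF₁0), natDegree_mul hAs (mul_ne_zero hBs hDs), natDegree_mul hBs hDs,
      Bivariate.swap_C, natDegree_map_eq_of_injective C_injective, hA, natDegree_A, hD,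
      natDegree_swap_D]
  have hdeg3 : (Bivariate.swap F).natDegree ≤ D₁ := natDegree_swap_le.mpr hD₁
  -- the multiplicities
  set w : k → ℕ := fun t => W t - (v t + h t * Θ + c₀) with hw
  set m : k → ℕ := fun t => (w t + Θ - 1) / Θ with hm
  have hm1 : ∀ t, ∀ n, w t ≤ Θ * n → m t ≤ n := by
    intro t n hn
    have h1 : (w t + Θ - 1) / Θ < n + 1 := by
      rw [Nat.div_lt_iff_lt_mul (by omega), add_mul, one_mul, mul_comm n]
      omega
    exact Nat.lt_succ_iff.mp h1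
  have hm2 : ∀ t, w t ≤ Θ * m t := by
    intro t
    have h1 := Nat.div_add_mod (w t + Θ - 1) Θ
    have h2 := Nat.mod_lt (w t + Θ - 1) (show 0 < Θ by omega)
    show w t ≤ Θ * ((w t + Θ - 1) / Θ)
    omega
  have hdvd : ∀ t₀ ∈ S, (X - C t₀) ^ m t₀ ∣ F₁.eval X := by
    intro t₀ ht₀
    refine shift_back _ t₀ _ ?_
    rw [← diag_shf]
    refine diag_dvd (shf t₀ F₁) Θ (w t₀) (m t₀) ?_ (hm1 t₀) (by omega)
    refine ((hW t₀ ht₀).union (Set.finite_singleton (0 : k))).subset fun c' hc' => ?_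
    by_cases h0 : c' = 0
    · exact Or.inr h0
    left
    intro hdv
    apply hc'
    have h1 : evh X (C c' * X ^ Θ) (shf t₀ F₁) =
        evh (C t₀ + X) (C t₀ + C c' * X ^ Θ) F₁ := by
      rw [← evh_shf]
      rfl
    rw [h1]
    rw [ev_eq, hF₁, map_mul, map_mul, map_mul, hA, hB, hD, evh_A, evh_B, evh_D] at hdv
    refine strip ?_ hdv
    have h2 := (ex_A S₀ v t₀ (hS ht₀)).mul
      ((ex_B S₀ h Θ (by omega) t₀ c' h0 (hS ht₀)).mul (ex_D c₀ Θ hΘ c'))
    rwa [← add_assoc] at h2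
  have hsum : ∑ t ∈ S, m t ≤ (F₁.eval X).natDegree := by
    have h1 : ∏ t ∈ S, (X - C t) ^ m t ∣ F₁.eval X :=
      prod_dvd_of S _ m _ (fun i _ j _ hij =>
        isCoprime_X_sub_C_of_isUnit_sub (sub_ne_zero_of_ne hij).isUnit) hdvd
    have h2 := natDegree_le_of_dvd h1 hG0
    rwa [natDegree_A] at h2
  have hfin := hsum.trans (natDegree_diag_le F₁)
  -- conclusion
  have hz : ∀ t ∈ S, ((W t : ℤ) - v t - Θ * h t - c) ≤ Θ * (m t : ℤ) := by
    intro t _
    have h1 : ((w t : ℕ) : ℤ) ≤ Θ * (m t : ℤ) := by exact_mod_cast hm2 t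
    have h2 : (W t : ℤ) - (v t + h t * Θ + c₀) ≤ (w t : ℤ) := by
      have h3 : W t ≤ w t + (v t + h t * Θ + c₀) := by
        show W t ≤ W t - (v t + h t * Θ + c₀) + (v t + h t * Θ + c₀)
        omega
      have h4 : (W t : ℤ) ≤ (w t : ℤ) + (v t + h t * Θ + c₀) := by exact_mod_cast h3
      linarith
    have h5 : (c₀ : ℤ) ≤ c := by exact_mod_cast hc₀
    have h6 : (Θ : ℤ) * h t = h t * Θ := mul_comm _ _
    linarith
  refine (Finset.sum_le_sum hz).trans ?_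
  rw [← Finset.mul_sum]
  refine mul_le_mul_of_nonneg_left ?_ (by positivity)
  have e1 : ((∑ t ∈ S, m t : ℕ) : ℤ) = ∑ t ∈ S, (m t : ℤ) := by push_cast; rfl
  have e2 : ((∑ t ∈ S₀, v t : ℕ) : ℤ) = ∑ t ∈ S₀, (v t : ℤ) := by push_cast; rfl
  have e3 : ((∑ t ∈ S₀, h t : ℕ) : ℤ) = ∑ t ∈ S₀, (h t : ℤ) := by push_cast; rfl
  rw [← e1, ← e2, ← e3]
  omega

end Pool.Agent.Q153.SU
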