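import Pool.Agent.Q153.SU.Inv2

set_option autoImplicit false

/-! Project SU (helper41), job N5 (helper153): no invariant differentials. -/

namespace Pool.Agent.Q153.SU

open Finset
open Polynomial (aeval derivative X C)
open Pool.Agent.Q41.SU (hcm rf wr Inv Stab S_inv)

universe u

theorem inv : S_inv.{u} := by
  intro E _ _ p q hpq hq hN2 P hP x hx l hl A B hA hB hInv
  obtain ⟨N, hN⟩ : ∃ N, N = max p.natDegree q.natDegree := ⟨_, rfl⟩
  rw [← hN] at hN2
  obtain ⟨f, hf⟩ : ∃ f : E → E, ∀ y, f y = p.eval y / q.eval y := ⟨_, fun _ => rfl⟩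
  have hA0 : A ≠ 0 := by
    rintro rfl
    exact hA Polynomial.eval_zero
  have hB0 : B ≠ 0 := by
    rintro rfl
    exact hB Polynomial.eval_zero
  have hit := iter hpq hN hN2 hq hP hB0 hInv f hf
  have hmem : ∀ n, f^[n] x ∈ P := by
    intro n
    obtain ⟨u, v, F, h1, h2, h3, h4, h5, h6, -⟩ := hit n x hx
    exact h6
  obtain ⟨i, j, hij, hfij⟩ : ∃ i j, i < j ∧ f^[i] x = f^[j] x := by
    obtain ⟨i, hi, j, hj, hne, h⟩ := Finset.exists_ne_map_eq_of_card_lt_of_maps_to
      (s := range (P.card + 1)) (t := P) (by rw [card_range]; omega) (f := fun n => f^[n] x)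
      (fun n _ => hmem n)
    rcases lt_or_gt_of_ne hne with h1 | h1
    · exact ⟨i, j, h1, h⟩
    · exact ⟨j, i, h1, h.symm⟩
  obtain ⟨M, hM⟩ : ∃ M, j = i + M := ⟨j - i, by omega⟩
  have hM1 : 1 ≤ M := by omega
  obtain ⟨y, hy⟩ : ∃ y, y = f^[i] x := ⟨_, rfl⟩
  have hyP : y ∈ P := by
    rw [hy]
    exact hmem i
  have hyM : f^[M] y = y := by
    rw [hM, Nat.add_comm, Function.iterate_add_apply] at hfij
    rw [hy]
    exact hfij.symm
  obtain ⟨a, A₂, hA₂, hA₂'⟩ := factor hA0 y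
  obtain ⟨b, B₂, hB₂, hB₂'⟩ := factor hB0 y
  have hfac : ∀ F : PowerSeries E, PowerSeries.constantCoeff F = 0 → F ≠ 0 →
      ∃ (e : ℕ) (W : PowerSeries E), 1 ≤ e ∧ F = PowerSeries.X ^ e * W ∧
      PowerSeries.constantCoeff W ≠ 0 := by
    intro F hF0 hF
    have h1 : F = PowerSeries.X ^ F.order.toNat * PowerSeries.divXPowOrder F :=
      (PowerSeries.X_pow_order_mul_divXPowOrder (f := F)).symm
    have h2 : PowerSeries.constantCoeff (PowerSeries.divXPowOrder F) ≠ 0 := by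
      intro h0
      exact hF (PowerSeries.constantCoeff_divXPowOrder_eq_zero_iff.mp h0)
    refine ⟨_, _, ?_, h1, h2⟩
    by_contra h0
    have h3 : F.order.toNat = 0 := by omega
    rw [h3, pow_zero, one_mul] at h1
    rw [h1] at hF0
    exact h2 hF0
  -- the order at the periodic point
  have hab : a < l + b := by
    obtain ⟨u, v, F, -, -, -, -, -, -, -, hF0, hF, hR, -⟩ := hit i x hx
    obtain ⟨e, W, he, hFW, hW⟩ := hfac F hF0 hF
    rw [← hy] at hR
    have h1 := (hR.ord he hFW hW (a := 0) (b := 0) (A₁ := A) (B₁ := B) (by rw [pow_zero, one_mul])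
      hA (by rw [pow_zero, one_mul]) hB hA₂ hA₂' hB₂ hB₂').1
    by_contra hcon
    have h2 : l + b ≤ a := by omega
    have h3 : e * (l + b) ≤ e * a := Nat.mul_le_mul_left e h2
    obtain ⟨e', rfl⟩ : ∃ e', e = e' + 1 := ⟨e - 1, by omega⟩
    rw [Nat.add_sub_cancel] at h1
    nlinarith
  -- the multiplier
  obtain ⟨u, v, F, -, -, -, -, -, -, -, hF0, hF, hR, hc⟩ := hit M y hyP
  rw [hyM] at hR
  obtain ⟨e, W, he, hFW, hW⟩ := hfac F hF0 hF
  obtain ⟨h1, h2⟩ := hR.ord he hFW hW hA₂ hA₂' hB₂ hB₂' hA₂ hA₂' hB₂ hB₂'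
  have he1 : e = 1 := by
    obtain ⟨e', rfl⟩ : ∃ e', e = e' + 1 := ⟨e - 1, by omega⟩
    rw [Nat.add_sub_cancel] at h1
    by_contra hne
    have h3 : 1 ≤ e' := by omega
    have h4 : e' * (a + 1) ≤ e' * (l + b) := Nat.mul_le_mul_left e' (by omega)
    nlinarith
  have hlam : PowerSeries.coeff 1 F = PowerSeries.constantCoeff W := by
    rw [hFW, he1, pow_one, show (1 : ℕ) = 0 + 1 from rfl, PowerSeries.coeff_succ_X_mul,
      PowerSeries.coeff_zero_eq_constantCoeff_apply]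
  obtain ⟨n, hn⟩ : ∃ n, l + b = a + n := ⟨l + b - a, by omega⟩
  have hn1 : 1 ≤ n := by omega
  have hroot : (PowerSeries.coeff 1 F) ^ n = 1 := by
    rw [hlam]
    rw [he1, Nat.cast_one, one_mul] at h2
    have h3 : (PowerSeries.constantCoeff W) ^ (a + n) = (PowerSeries.constantCoeff W) ^ a := by
      rw [← hn, pow_add]
      apply mul_right_cancel₀ (mul_ne_zero hA₂' hB₂')
      linear_combination -h2
    rw [pow_add] at h3
    exact mul_left_cancel₀ (pow_ne_zero a hW) (by rw [h3, mul_one])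
  -- an iterate tangent to the identity
  have hyM' : ∀ k, f^[M * k] y = y := by
    intro k
    rw [Function.iterate_mul]
    exact Function.iterate_fixed hyM k
  obtain ⟨u', v', F', g1, g2, g3, g4, g5, g6, g7, g8, g9, g10, g11⟩ := hit (M * n) y hyP
  rw [hyM'] at g7 g10
  have hF1 : PowerSeries.coeff 1 F' = 1 := by
    rw [g11, prod_period, ← hc, hroot]
    intro i
    rw [Function.iterate_add_apply, hyM]
  have hD : 2 ≤ N ^ (M * n) := by
    have h3 : N ^ 1 ≤ N ^ (M * n) := Nat.pow_le_pow_right (by omega) (Nat.mul_pos hM1 hn1)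
    rw [pow_one] at h3
    omega
  have hfin := tangent hl g10 g8 hF1 (F_ne_X hD g1 g4 g7) hA₂ hA₂' hB₂ hB₂'
  omega

end Pool.Agent.Q153.SU
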