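import Pool.Agent.Q153.SU.Hcm
import Pool.Agent.Q41.SU.Stm5

set_option autoImplicit false

/-! Project SU (helper41), job N6 (helper153): the Riccati equation. -/

namespace Pool.Agent.Q153.SU

open Finset Polynomial
open Pool.Agent.Q41.SU (hcm rf wr vd cD Ric S_ric)

universe u

variable {E : Type u} [Field E]

/-- the Wronskian has degree at most `2 D - 2` -/
theorem wr_natDegree {p q : E[X]} {D : ℕ} (hD : 1 ≤ D) (hp : p.natDegree ≤ D)
    (hq : q.natDegree ≤ D) : (wr p q).natDegree ≤ 2 * D - 2 := by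
  have hp' : (derivative p).natDegree ≤ D - 1 :=
    (natDegree_derivative_le p).trans (Nat.sub_le_sub_right hp 1)
  have hq' : (derivative q).natDegree ≤ D - 1 :=
    (natDegree_derivative_le q).trans (Nat.sub_le_sub_right hq 1)
  have h1 : (wr p q).natDegree ≤ D - 1 + D := by
    unfold wr
    refine (natDegree_sub_le _ _).trans (max_le ?_ ?_)
    · exact natDegree_mul_le.trans (by omega)
    · exact natDegree_mul_le.trans (by omega)
  rw [natDegree_le_iff_coeff_eq_zero]
  intro N hN
  rcases Nat.lt_or_ge (D - 1 + D) N with h2 | h2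
  · exact coeff_eq_zero_of_natDegree_lt (by omega)
  · have h3 : N = D - 1 + D := by omega
    have h4 : (derivative p * q).coeff (D - 1 + D) = (derivative p).coeff (D - 1) * q.coeff D :=
      coeff_mul_add_eq_of_natDegree_le hp' hq
    have h5 : (p * derivative q).coeff (D - 1 + D) = p.coeff D * (derivative q).coeff (D - 1) := by
      rw [add_comm (D - 1) D]
      exact coeff_mul_add_eq_of_natDegree_le hp hq'
    rw [h3, wr, coeff_sub, h4, h5, coeff_derivative, coeff_derivative, show D - 1 + 1 = D by omega]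
    ring

theorem cD_natDegree {k : Type u} [Field k] [Algebra k E] (D : Derivation k E E) (p : E[X]) :
    (cD D p).natDegree ≤ p.natDegree := by
  unfold cD
  refine natDegree_sum_le_of_forall_le _ _ fun i hi => ?_
  have hi' : i ≤ p.natDegree := Nat.lt_succ_iff.mp (Finset.mem_range.mp hi)
  exact (natDegree_C_mul_X_pow_le _ _).trans hi'

theorem vd_natDegree {k : Type u} [Field k] [Algebra k E] (D : Derivation k E E) {p q : E[X]}
    {N : ℕ} (hp : p.natDegree ≤ N) (hq : q.natDegree ≤ N) : (vd D p q).natDegree ≤ 2 * N := by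
  unfold vd
  have h1 := cD_natDegree D p
  have h2 := cD_natDegree D q
  refine (natDegree_sub_le _ _).trans (max_le ?_ ?_)
  · exact natDegree_mul_le.trans (by omega)
  · exact natDegree_mul_le.trans (by omega)

theorem max_coeff {p q : E[X]} (h : 1 ≤ max p.natDegree q.natDegree) :
    p.coeff (max p.natDegree q.natDegree) ≠ 0 ∨ q.coeff (max p.natDegree q.natDegree) ≠ 0 := by
  rcases le_total p.natDegree q.natDegree with h1 | h1
  · right
    rw [max_eq_right h1] at h ⊢
    have hq : q ≠ 0 := by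
      rintro rfl
      rw [natDegree_zero] at h
      omega
    exact leadingCoeff_ne_zero.mpr hq
  · left
    rw [max_eq_left h1] at h ⊢
    have hp : p ≠ 0 := by
      rintro rfl
      rw [natDegree_zero] at h
      omega
    exact leadingCoeff_ne_zero.mpr hp

/-- substitution of a nonconstant rational function is injective -/
theorem hcm_ne_zero {p q : E[X]} (hpq : IsCoprime p q) (h1 : 1 ≤ max p.natDegree q.natDegree)
    {A : E[X]} (hA : A ≠ 0) : hcm A.natDegree A p q ≠ 0 := by
  intro h0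
  have hAm : A.coeff A.natDegree ≠ 0 := leadingCoeff_ne_zero.mpr hA
  by_cases hqD : q.coeff (max p.natDegree q.natDegree) = 0
  · have h2 := hcm_coeff (d := A.natDegree) (A := A) (le_max_left p.natDegree q.natDegree)
      (le_max_right p.natDegree q.natDegree)
    rw [h0, coeff_zero, hqD, form_zero] at h2
    have hp : p.coeff (max p.natDegree q.natDegree) ≠ 0 :=
      (max_coeff h1).resolve_right fun h => h hqD
    exact mul_ne_zero hAm (pow_ne_zero _ hp) h2.symm
  · have hqu : ¬ IsUnit q := by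
      intro hu
      have h3 := natDegree_eq_zero_of_isUnit hu
      apply hqD
      rw [coeff_eq_zero_of_natDegree_lt]
      rw [h3]
      omega
    have hq0 : q ≠ 0 := by
      rintro rfl
      exact hqD (coeff_zero _)
    obtain ⟨π, hπ, hπq⟩ := WfDvdMonoid.exists_irreducible_factor hqu hq0
    have hπ' : Prime π := irreducible_iff_prime.mp hπ
    have hu : ¬ π ∣ p := fun hu => hπ.not_isUnit (hpq.isUnit_of_dvd' hu hπq)
    have h : π ∣ hcm A.natDegree A p q := by
      rw [h0]
      exact dvd_zero _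
    rw [hcm, Finset.sum_range_succ, Nat.sub_self, pow_zero, mul_one] at h
    have h4 : π ∣ ∑ i ∈ range A.natDegree, C (A.coeff i) * p ^ i * q ^ (A.natDegree - i) := by
      refine Finset.dvd_sum fun i hi => ?_
      have hi' := Finset.mem_range.mp hi
      exact Dvd.dvd.mul_left (dvd_pow hπq (by omega)) _
    have h5 := (dvd_add_right h4).mp h
    rcases hπ'.dvd_or_dvd h5 with h6 | h6
    · exact hπ.not_isUnit (isUnit_of_dvd_unit h6 (isUnit_C.mpr (Ne.isUnit hAm)))
    · exact absurd (hπ'.dvd_of_dvd_pow h6) hu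

theorem aeval_ne_zero {p q : E[X]} (hpq : IsCoprime p q) (hq : q ≠ 0)
    (h1 : 1 ≤ max p.natDegree q.natDegree) {A : E[X]} (hA : A ≠ 0) : aeval (rf p q) A ≠ 0 := by
  intro h0
  have h2 := hcm_spec (A := A) (u := p) hq le_rfl
  rw [h0, mul_zero] at h2
  exact am_ne (hcm_ne_zero hpq h1 hA) h2

/-- **(N6) Riccati.** -/
theorem ric : S_ric.{u} := by
  intro k E _ _ _ _ D p q hpq hq hd R₁ R₂ hR₂ hR
  have hq' := am_ne hq
  obtain ⟨Q₂, Q₁, g, hrel, hg2, hg1⟩ := UniqueFactorizationMonoid.exists_reduced_factors R₂ hR₂ R₁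
  have hco : IsCoprime Q₁ Q₂ := (isRelPrime_iff_isCoprime.mp hrel).symm
  have hg0 : g ≠ 0 := by
    rintro rfl
    rw [zero_mul] at hg2
    exact hR₂ hg2.symm
  have hQ₂ : Q₂ ≠ 0 := by
    rintro rfl
    rw [mul_zero] at hg2
    exact hR₂ hg2.symm
  obtain ⟨N, hN⟩ : ∃ N, N = max p.natDegree q.natDegree := ⟨_, rfl⟩
  have hpN : p.natDegree ≤ N := by
    rw [hN]
    exact le_max_left _ _
  have hqN : q.natDegree ≤ N := by
    rw [hN]
    exact le_max_right _ _
  have hN2 : 2 ≤ N := by
    rw [hN]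
    exact hd
  have hgφ : aeval (rf p q) g ≠ 0 := aeval_ne_zero hpq hq (by omega) hg0
  obtain ⟨m, hm⟩ : ∃ m, m = max Q₂.natDegree (Q₁.natDegree - 2) := ⟨_, rfl⟩
  have hm2 : Q₂.natDegree ≤ m := by
    rw [hm]
    exact le_max_left _ _
  have hm1 : Q₁.natDegree ≤ m + 2 := by
    have : Q₁.natDegree - 2 ≤ m := by
      rw [hm]
      exact le_max_right _ _
    omega
  have htop : Q₁.coeff (m + 2) ≠ 0 ∨ Q₂.coeff m ≠ 0 := by
    rcases le_total (Q₁.natDegree - 2) Q₂.natDegree with h | h
    · right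
      rw [hm, max_eq_left h]
      exact leadingCoeff_ne_zero.mpr hQ₂
    · rcases Nat.eq_zero_or_pos (Q₁.natDegree - 2) with h0 | h0
      · right
        rw [hm, max_eq_right h, h0]
        have h3 : Q₂.natDegree = 0 := by omega
        rw [← h3]
        exact leadingCoeff_ne_zero.mpr hQ₂
      · left
        rw [hm, max_eq_right h, show Q₁.natDegree - 2 + 2 = Q₁.natDegree by omega]
        have hQ₁ : Q₁ ≠ 0 := by
          rintro rfl
          rw [natDegree_zero] at h0
          omega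
        exact leadingCoeff_ne_zero.mpr hQ₁
  -- the polynomial relation
  have hpoly : hcm (m + 2) Q₁ p q * Q₂ = (vd D p q * Q₂ + wr p q * Q₁) * hcm m Q₂ p q := by
    apply am_inj
    rw [map_mul, map_mul, map_add, map_mul, map_mul, hcm_spec hq hm1, hcm_spec hq hm2]
    unfold Ric at hR
    rw [← hg1, ← hg2] at hR
    simp only [map_mul] at hR
    have h1 : aeval (rf p q) Q₁ * algebraMap E[X] (RatFunc E) Q₂ =
        (rf (vd D p q) (q ^ 2) * algebraMap E[X] (RatFunc E) Q₂ +
          rf (wr p q) (q ^ 2) * algebraMap E[X] (RatFunc E) Q₁) * aeval (rf p q) Q₂ := by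
      apply mul_left_cancel₀ (mul_ne_zero hgφ (am_ne hg0))
      linear_combination hR
    have h2 : ∀ A : E[X], rf A (q ^ 2) * algebraMap E[X] (RatFunc E) q ^ 2 =
        algebraMap E[X] (RatFunc E) A := by
      intro A
      unfold rf
      rw [map_pow, div_mul_cancel₀ _ (pow_ne_zero _ hq')]
    rw [← h2 (vd D p q), ← h2 (wr p q)]
    linear_combination algebraMap E[X] (RatFunc E) q ^ (m + 2) * h1
  obtain ⟨h₁, hh₁⟩ : ∃ h₁, h₁ = hcm (m + 2) Q₁ p q := ⟨_, rfl⟩
  obtain ⟨h₂, hh₂⟩ : ∃ h₂, h₂ = hcm m Q₂ p q := ⟨_, rfl⟩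
  have hcop : IsCoprime h₁ h₂ := by
    rw [hh₁, hh₂]
    exact hcm_coprime hco hm1 hm2 htop hpq hq
  have htop2 : h₁.coeff (N * (m + 2)) ≠ 0 ∨ h₂.coeff (N * m) ≠ 0 := by
    rw [hh₁, hh₂]
    refine top_ne hco hm1 hm2 htop hpN hqN ?_
    rw [hN]
    exact max_coeff (by omega)
  rw [← hh₁, ← hh₂] at hpoly
  have hdvd : h₂ ∣ Q₂ := by
    refine hcop.symm.dvd_of_dvd_mul_left ?_
    rw [hpoly]
    exact dvd_mul_left _ _
  have hdeg : h₂.natDegree ≤ Q₂.natDegree := natDegree_le_of_dvd hdvd hQ₂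
  have hm0 : m = 0 := by
    rcases htop2 with h | h
    · have h3 : N * (m + 2) ≤ h₁.natDegree := le_natDegree_of_ne_zero h
      have hh10 : h₁ ≠ 0 := by
        rintro rfl
        exact h (coeff_zero _)
      have h4 := congrArg natDegree hpoly
      rw [natDegree_mul hh10 hQ₂] at h4
      have h5 : ((vd D p q * Q₂ + wr p q * Q₁) * h₂).natDegree ≤ 2 * N + m + h₂.natDegree := by
        refine natDegree_mul_le.trans (Nat.add_le_add_right ?_ _)
        refine (natDegree_add_le _ _).trans (max_le ?_ ?_)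
        · have h6 := vd_natDegree D hpN hqN
          exact natDegree_mul_le.trans (by omega)
        · have h6 := wr_natDegree (by omega) hpN hqN
          exact natDegree_mul_le.trans (by omega)
      have h6 : N * (m + 2) = N * m + 2 * N := by ring
      have h7 : 2 * m ≤ N * m := Nat.mul_le_mul_right m hN2
      omega
    · have h3 : N * m ≤ h₂.natDegree := le_natDegree_of_ne_zero h
      have h7 : 2 * m ≤ N * m := Nat.mul_le_mul_right m hN2
      omega
  rw [hm0] at hm1 hm2
  obtain ⟨c, hc⟩ := natDegree_eq_zero.mp (Nat.le_zero.mp hm2)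
  have hc0 : c ≠ 0 := by
    rintro rfl
    rw [C_0] at hc
    exact hQ₂ hc.symm
  have hQ1 : Q₁ = C (Q₁.coeff 2) * X ^ 2 + C (Q₁.coeff 1) * X + C (Q₁.coeff 0) := by
    have h8 : Q₁.natDegree < 3 := by omega
    conv_lhs => rw [as_sum_range_C_mul_X_pow' Q₁ h8]
    rw [Finset.sum_range_succ, Finset.sum_range_succ, Finset.sum_range_succ, Finset.sum_range_zero]
    ring
  refine ⟨Q₁.coeff 2 / c, Q₁.coeff 1 / c, Q₁.coeff 0 / c, ?_⟩
  have h9 : ∀ x : E, C (x / c) * C c = C x := by
    intro x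
    rw [← C_mul, div_mul_cancel₀ _ hc0]
  calc R₁ = g * Q₁ := hg1.symm
    _ = g * (C (Q₁.coeff 2) * X ^ 2 + C (Q₁.coeff 1) * X + C (Q₁.coeff 0)) := by rw [← hQ1]
    _ = (C (Q₁.coeff 2 / c) * X ^ 2 + C (Q₁.coeff 1 / c) * X + C (Q₁.coeff 0 / c)) * (g * C c) := by
        rw [← h9 (Q₁.coeff 2), ← h9 (Q₁.coeff 1), ← h9 (Q₁.coeff 0)]
        ring
    _ = _ := by rw [hc, hg2]

end Pool.Agent.Q153.SU
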