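import Pool.Agent.Q41.SU.Defs2

set_option autoImplicit false

/-! Project SU (helper41), jobs N5, N6 (helper153): homogenised polynomials at a coprime pair. -/

namespace Pool.Agent.Q153.SU

open Finset Polynomial
open Pool.Agent.Q41.SU (hcm rf)

universe u

variable {E : Type u} [Field E]

theorem am_inj {a b : E[X]} (h : algebraMap E[X] (RatFunc E) a = algebraMap E[X] (RatFunc E) b) :
    a = b := RatFunc.algebraMap_injective E h

theorem am_ne {a : E[X]} (h : a ≠ 0) : algebraMap E[X] (RatFunc E) a ≠ 0 :=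
  RatFunc.algebraMap_ne_zero h

theorem hcm_spec {d : ℕ} {A u v : E[X]} (hv : v ≠ 0) (hA : A.natDegree ≤ d) :
    algebraMap E[X] (RatFunc E) (hcm d A u v) =
      algebraMap E[X] (RatFunc E) v ^ d * aeval (rf u v) A := by
  have hv' := am_ne hv
  rw [aeval_eq_sum_range' (Nat.lt_succ_iff.mpr hA), hcm, map_sum, Finset.mul_sum]
  refine Finset.sum_congr rfl fun i hi => ?_
  have hi' : i ≤ d := Nat.lt_succ_iff.mp (Finset.mem_range.mp hi)
  rw [map_mul, map_mul, map_pow, map_pow, rf, div_pow, Algebra.smul_def,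
    IsScalarTower.algebraMap_apply E E[X] (RatFunc E)]
  have h1 : algebraMap E[X] (RatFunc E) v ^ d = algebraMap E[X] (RatFunc E) v ^ i *
      algebraMap E[X] (RatFunc E) v ^ (d - i) := by
    rw [← pow_add, show i + (d - i) = d by omega]
  rw [h1]
  change algebraMap E[X] (RatFunc E) (C (A.coeff i)) * _ * _ =
    _ * (algebraMap E[X] (RatFunc E) (C (A.coeff i)) * _)
  field_simp

/-- the top coefficient of the homogenised polynomial -/
theorem hcm_coeff {d D : ℕ} {A u v : E[X]} (hu : u.natDegree ≤ D) (hv : v.natDegree ≤ D) :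
    (hcm d A u v).coeff (D * d) =
      ∑ i ∈ range (d + 1), A.coeff i * u.coeff D ^ i * v.coeff D ^ (d - i) := by
  rw [hcm, finsetSum_coeff]
  refine Finset.sum_congr rfl fun i hi => ?_
  have hi' : i ≤ d := Nat.lt_succ_iff.mp (Finset.mem_range.mp hi)
  have h1 : (u ^ i).natDegree ≤ D * i := by
    refine natDegree_pow_le.trans ?_
    rw [mul_comm]
    exact Nat.mul_le_mul_right _ hu
  have h2 : (v ^ (d - i)).natDegree ≤ D * (d - i) := by
    refine natDegree_pow_le.trans ?_
    rw [mul_comm]
    exact Nat.mul_le_mul_right _ hv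
  have h3 : D * d = D * i + D * (d - i) := by
    rw [← Nat.mul_add, show i + (d - i) = d by omega]
  rw [mul_assoc, coeff_C_mul, h3, coeff_mul_add_eq_of_natDegree_le h1 h2, mul_assoc]
  congr 2
  · rw [mul_comm D i, coeff_pow_of_natDegree_le hu]
  · rw [mul_comm D (d - i), coeff_pow_of_natDegree_le hv]

theorem hcm_natDegree {d D : ℕ} {A u v : E[X]} (hu : u.natDegree ≤ D) (hv : v.natDegree ≤ D) :
    (hcm d A u v).natDegree ≤ D * d := by
  rw [hcm]
  refine natDegree_sum_le_of_forall_le _ _ fun i hi => ?_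
  have hi' : i ≤ d := Nat.lt_succ_iff.mp (Finset.mem_range.mp hi)
  have h1 : (u ^ i).natDegree ≤ D * i := by
    refine natDegree_pow_le.trans ?_
    rw [mul_comm]
    exact Nat.mul_le_mul_right _ hu
  have h2 : (v ^ (d - i)).natDegree ≤ D * (d - i) := by
    refine natDegree_pow_le.trans ?_
    rw [mul_comm]
    exact Nat.mul_le_mul_right _ hv
  have h3 : D * d = D * i + D * (d - i) := by
    rw [← Nat.mul_add, show i + (d - i) = d by omega]
  rw [mul_assoc]
  refine (natDegree_C_mul_le _ _).trans (natDegree_mul_le.trans ?_)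
  omega

theorem form_eq {d : ℕ} {A : E[X]} (hA : A.natDegree ≤ d) (a b : E) (hb : b ≠ 0) :
    ∑ i ∈ range (d + 1), A.coeff i * a ^ i * b ^ (d - i) = b ^ d * A.eval (a / b) := by
  rw [eval_eq_sum_range' (Nat.lt_succ_iff.mpr hA), Finset.mul_sum]
  refine Finset.sum_congr rfl fun i hi => ?_
  have hi' : i ≤ d := Nat.lt_succ_iff.mp (Finset.mem_range.mp hi)
  have h1 : b ^ d = b ^ i * b ^ (d - i) := by
    rw [← pow_add, show i + (d - i) = d by omega]
  rw [h1, div_pow]
  field_simp

theorem form_zero {d : ℕ} (A : E[X]) (a : E) :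
    ∑ i ∈ range (d + 1), A.coeff i * a ^ i * (0 : E) ^ (d - i) = A.coeff d * a ^ d := by
  rw [Finset.sum_eq_single d]
  · rw [Nat.sub_self, pow_zero, mul_one]
  · intro i hi hid
    have hi' : i ≤ d := Nat.lt_succ_iff.mp (Finset.mem_range.mp hi)
    rw [zero_pow (by omega), mul_zero]
  · intro h
    exact absurd (Finset.mem_range.mpr (Nat.lt_succ_self d)) h

/-- the top coefficients do not both vanish -/
theorem top_ne {m n D : ℕ} {U V u v : E[X]} (hUV : IsCoprime U V) (hU : U.natDegree ≤ m)
    (hV : V.natDegree ≤ n) (hmn : U.coeff m ≠ 0 ∨ V.coeff n ≠ 0) (hu : u.natDegree ≤ D)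
    (hv : v.natDegree ≤ D) (hD : u.coeff D ≠ 0 ∨ v.coeff D ≠ 0) :
    (hcm m U u v).coeff (D * m) ≠ 0 ∨ (hcm n V u v).coeff (D * n) ≠ 0 := by
  rw [hcm_coeff hu hv, hcm_coeff hu hv]
  by_cases hb : v.coeff D = 0
  · have ha : u.coeff D ≠ 0 := hD.resolve_right fun h => h hb
    rw [hb, form_zero, form_zero]
    rcases hmn with h | h
    · exact Or.inl (mul_ne_zero h (pow_ne_zero _ ha))
    · exact Or.inr (mul_ne_zero h (pow_ne_zero _ ha))
  · rw [form_eq hU _ _ hb, form_eq hV _ _ hb]
    by_contra hcon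
    push Not at hcon
    obtain ⟨h1, h2⟩ := hcon
    have h3 := (mul_eq_zero.mp h1).resolve_left (pow_ne_zero _ hb)
    have h4 := (mul_eq_zero.mp h2).resolve_left (pow_ne_zero _ hb)
    obtain ⟨a, b, hab⟩ := hUV
    have h5 := congrArg (fun p : E[X] => p.eval (u.coeff D / v.coeff D)) hab
    simp only [eval_add, eval_mul, h3, h4, mul_zero, add_zero, eval_one] at h5
    exact zero_ne_one h5

/-- the homogenised polynomials are coprime -/
theorem hcm_coprime {m n : ℕ} {U V u v : E[X]} (hUV : IsCoprime U V) (hU : U.natDegree ≤ m)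
    (hV : V.natDegree ≤ n) (hmn : U.coeff m ≠ 0 ∨ V.coeff n ≠ 0) (huv : IsCoprime u v)
    (hv0 : v ≠ 0) : IsCoprime (hcm m U u v) (hcm n V u v) := by
  have key : ∀ π : E[X], Prime π → π ∣ hcm m U u v → ¬ π ∣ hcm n V u v := by
    intro π hπ h1 h2
    by_cases hv : π ∣ v
    · -- at the zeros of `v`
      have hu : ¬ π ∣ u := by
        intro hu
        exact hπ.not_isUnit (huv.isUnit_of_dvd' hu hv)
      have h3 : ∀ (d : ℕ) (A : E[X]), π ∣ hcm d A u v → A.coeff d = 0 := by
        intro d A h
        rw [hcm, Finset.sum_range_succ, Nat.sub_self, pow_zero, mul_one] at h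
        have h4 : π ∣ ∑ i ∈ range d, C (A.coeff i) * u ^ i * v ^ (d - i) := by
          refine Finset.dvd_sum fun i hi => ?_
          have hi' := Finset.mem_range.mp hi
          exact Dvd.dvd.mul_left (dvd_pow hv (by omega)) _
        have h5 := (dvd_add_right h4).mp h
        rcases hπ.dvd_or_dvd h5 with h6 | h6
        · by_contra h7
          exact hπ.not_isUnit (isUnit_of_dvd_unit h6 (isUnit_C.mpr (Ne.isUnit h7)))
        · exact absurd (hπ.dvd_of_dvd_pow h6) hu
      rcases hmn with h | h
      · exact h (h3 m U h1)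
      · exact h (h3 n V h2)
    · obtain ⟨a, b, hab⟩ := hUV
      have hv' := am_ne hv0
      have h3 : v ^ (a.natDegree + m + (b.natDegree + n)) =
          v ^ (b.natDegree + n) * (hcm a.natDegree a u v * hcm m U u v) +
          v ^ (a.natDegree + m) * (hcm b.natDegree b u v * hcm n V u v) := by
        apply am_inj
        rw [map_add, map_mul, map_mul, map_mul, map_mul, map_pow, map_pow, map_pow,
          hcm_spec hv0 le_rfl, hcm_spec hv0 le_rfl, hcm_spec hv0 hU, hcm_spec hv0 hV]
        have h4 : aeval (rf u v) a * aeval (rf u v) U + aeval (rf u v) b * aeval (rf u v) V = 1 := by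
          rw [← map_mul, ← map_mul, ← map_add, hab, map_one]
        calc algebraMap E[X] (RatFunc E) v ^ (a.natDegree + m + (b.natDegree + n)) =
            algebraMap E[X] (RatFunc E) v ^ (a.natDegree + m + (b.natDegree + n)) *
              (aeval (rf u v) a * aeval (rf u v) U + aeval (rf u v) b * aeval (rf u v) V) := by
              rw [h4, mul_one]
          _ = _ := by ring
      have h4 : π ∣ v ^ (a.natDegree + m + (b.natDegree + n)) := by
        rw [h3]
        exact dvd_add ((h1.mul_left _).mul_left _) ((h2.mul_left _).mul_left _)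
      exact hv (hπ.dvd_of_dvd_pow h4)
  refine isCoprime_of_prime_dvd ?_ key
  rintro ⟨h1, h2⟩
  exact key X prime_X (by rw [h1]; exact dvd_zero _) (by rw [h2]; exact dvd_zero _)

end Pool.Agent.Q153.SU
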