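import Pool.Agent.Q41.SU.Stm3

set_option autoImplicit false

/-! Project SU (helper41), job T6 (helper153): the counting lemma. -/

namespace Pool.Agent.Q153.SU

open Finset Polynomial
open Pool.Agent.Q41.SU (ev S_count)

universe u

variable {k : Type u} [Field k]

/-- evaluation at a point as a ring homomorphism -/
noncomputable def evh (x y : k[X]) : k[X][X] →+* k[X] :=
  eval₂RingHom ((aeval x : k[X] →ₐ[k] k[X]) : k[X] →+* k[X]) y

theorem ev_eq (F : k[X][X]) (x y : k[X]) : ev F x y = evh x y F := rfl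

theorem evh_C (x y a : k[X]) : evh x y (C a) = aeval x a := by
  unfold evh
  rw [coe_eval₂RingHom, eval₂_C]
  rfl

theorem evh_X (x y : k[X]) : evh x y X = y := by
  unfold evh
  rw [coe_eval₂RingHom, eval₂_X]

/-- the shift of both variables -/
noncomputable def shf (t₀ : k) : k[X][X] →+* k[X][X] :=
  eval₂RingHom ((C : k[X] →+* k[X][X]).comp ((aeval (X + C t₀) : k[X] →ₐ[k] k[X]) : k[X] →+* k[X]))
    (X + C (C t₀))

theorem shf_C (t₀ : k) (a : k[X]) : shf t₀ (C a) = C (aeval (X + C t₀) a) := by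
  unfold shf
  rw [coe_eval₂RingHom, eval₂_C]
  rfl

theorem shf_X (t₀ : k) : shf t₀ (X : k[X][X]) = X + C (C t₀) := by
  unfold shf
  rw [coe_eval₂RingHom, eval₂_X]

theorem hom_ext2 {A : Type*} [CommRing A] {f g : k[X][X] →+* A} (h1 : ∀ a : k, f (C (C a)) = g (C (C a)))
    (h2 : f (C X) = g (C X)) (h3 : f X = g X) : f = g := by
  refine Polynomial.ringHom_ext (fun a => ?_) h3
  have h : f.comp (C : k[X] →+* k[X][X]) = g.comp (C : k[X] →+* k[X][X]) :=
    Polynomial.ringHom_ext h1 h2
  exact RingHom.congr_fun h a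

theorem evh_shf (t₀ : k) (y : k[X]) : (evh X y).comp (shf t₀) = evh (C t₀ + X) (C t₀ + y) := by
  refine hom_ext2 (fun a => ?_) ?_ ?_
  · rw [RingHom.comp_apply, shf_C, evh_C, evh_C, aeval_C, aeval_C]
    simp
  · rw [RingHom.comp_apply, shf_C, evh_C, evh_C, aeval_X, map_add, aeval_X, aeval_X, aeval_C]
    rw [add_comm]
    rfl
  · rw [RingHom.comp_apply, shf_X, map_add, evh_X, evh_X, evh_C, aeval_C, add_comm]
    rfl

theorem diag_shf (t₀ : k) (F : k[X][X]) : (shf t₀ F).eval X = (F.eval X).comp (X + C t₀) := by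
  have h : (evalRingHom (X : k[X])).comp (shf t₀) =
      (compRingHom (X + C t₀)).comp (evalRingHom (X : k[X])) := by
    refine hom_ext2 (fun a => ?_) ?_ ?_
    · rw [RingHom.comp_apply, RingHom.comp_apply, shf_C, aeval_C]
      simp
    · rw [RingHom.comp_apply, RingHom.comp_apply, shf_C, aeval_X]
      simp
    · rw [RingHom.comp_apply, RingHom.comp_apply, shf_X]
      simp
  exact RingHom.congr_fun h F

/-- the coefficients of `G(X, c X ^ Θ)` -/
theorem coeff_ev (G : k[X][X]) (c : k) (Θ m : ℕ) : (evh X (C c * X ^ Θ) G).coeff m =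
    ∑ j ∈ range (G.natDegree + 1), (if Θ * j ≤ m then (G.coeff j).coeff (m - Θ * j) else 0) * c ^ j := by
  unfold evh
  rw [coe_eval₂RingHom, eval₂_eq_sum_range, finsetSum_coeff]
  refine Finset.sum_congr rfl fun j _ => ?_
  have h1 : ((aeval (X : k[X]) : k[X] →ₐ[k] k[X]) : k[X] →+* k[X]) (G.coeff j) = G.coeff j := by
    change aeval (X : k[X]) (G.coeff j) = _
    exact aeval_X_left_apply _
  rw [h1, mul_pow, ← pow_mul, ← C_pow, ← mul_assoc, mul_comm (G.coeff j), mul_assoc,
    coeff_C_mul, coeff_mul_X_pow']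
  ring

theorem coeff_zero [Infinite k] (G : k[X][X]) (Θ w : ℕ)
    (h : {c : k | ¬ X ^ w ∣ evh X (C c * X ^ Θ) G}.Finite) (i j : ℕ) (hij : i + Θ * j < w) :
    (G.coeff j).coeff i = 0 := by
  by_cases hj : j ≤ G.natDegree
  swap
  · have h0 : G.coeff j = 0 := coeff_eq_zero_of_natDegree_lt (by omega)
    rw [h0, Polynomial.coeff_zero]
  set m := i + Θ * j with hm
  set P : k[X] := ∑ l ∈ range (G.natDegree + 1),
    C (if Θ * l ≤ m then (G.coeff l).coeff (m - Θ * l) else 0) * X ^ l with hP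
  have hroot : {c : k | P.IsRoot c}.Infinite := by
    have h1 : {c : k | X ^ w ∣ evh X (C c * X ^ Θ) G}.Infinite := by
      have h2 := h.infinite_compl
      refine h2.mono fun c hc => ?_
      simpa using hc
    refine h1.mono fun c hc => ?_
    show P.eval c = 0
    have h3 := (X_pow_dvd_iff.mp hc) m hij
    rw [coeff_ev] at h3
    rw [hP, eval_finsetSum]
    refine Eq.trans (Finset.sum_congr rfl fun l _ => ?_) h3
    rw [eval_mul, eval_C, eval_pow, eval_X]
  have h0 : P = 0 := eq_zero_of_infinite_isRoot P hroot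
  have h1 := congrArg (fun p : k[X] => p.coeff j) h0
  simp only [hP, finsetSum_coeff, coeff_C_mul, coeff_X_pow, Polynomial.coeff_zero] at h1
  rw [Finset.sum_eq_single j] at h1
  · rw [if_pos rfl, mul_one, if_pos (by omega), show m - Θ * j = i by omega] at h1
    exact h1
  · intro l _ hl
    rw [if_neg (show ¬ j = l from fun h => hl h.symm), mul_zero]
  · intro hh
    exact absurd (Finset.mem_range.mpr (by omega)) hh

/-- the order of the diagonal -/
theorem diag_dvd [Infinite k] (G : k[X][X]) (Θ w m : ℕ)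
    (h : {c : k | ¬ X ^ w ∣ evh X (C c * X ^ Θ) G}.Finite) (hm : ∀ n, w ≤ Θ * n → m ≤ n)
    (hΘ : 1 ≤ Θ) : X ^ m ∣ G.eval X := by
  rw [eval_eq_sum_range]
  refine Finset.dvd_sum fun j _ => ?_
  have h1 : X ^ (w - Θ * j) ∣ G.coeff j := by
    rw [X_pow_dvd_iff]
    intro i hi
    exact coeff_zero G Θ w h i j (by omega)
  have h2 : X ^ ((w - Θ * j) + j) ∣ G.coeff j * X ^ j := by
    rw [pow_add]
    exact mul_dvd_mul h1 dvd_rfl
  refine (pow_dvd_pow _ (hm _ ?_)).trans h2
  rw [mul_add]
  have : w - Θ * j ≤ Θ * (w - Θ * j) := Nat.le_mul_of_pos_left _ hΘ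
  omega

/-- exact order at zero -/
def Ex (n : ℕ) (P : k[X]) : Prop := ∃ U : k[X], P = X ^ n * U ∧ U.coeff 0 ≠ 0

theorem Ex.mul {n m : ℕ} {P Q : k[X]} (hP : Ex n P) (hQ : Ex m Q) : Ex (n + m) (P * Q) := by
  obtain ⟨U, rfl, hU⟩ := hP
  obtain ⟨V, rfl, hV⟩ := hQ
  refine ⟨U * V, by ring, ?_⟩
  rw [mul_coeff_zero]
  exact mul_ne_zero hU hV

theorem Ex.one : Ex 0 (1 : k[X]) := ⟨1, by simp, by simp⟩

theorem Ex.pow {n : ℕ} {P : k[X]} (hP : Ex n P) (e : ℕ) : Ex (e * n) (P ^ e) := by
  induction e with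
  | zero => simpa using Ex.one
  | succ e ih =>
    rw [pow_succ, Nat.succ_mul]
    exact ih.mul hP

theorem Ex.prod {ι : Type*} (s : Finset ι) (n : ι → ℕ) (P : ι → k[X]) (h : ∀ i ∈ s, Ex (n i) (P i)) :
    Ex (∑ i ∈ s, n i) (∏ i ∈ s, P i) := by
  classical
  induction s using Finset.induction_on with
  | empty => simpa using Ex.one
  | insert a s ha ih =>
    rw [Finset.sum_insert ha, Finset.prod_insert ha]
    exact (h a (Finset.mem_insert_self _ _)).mul (ih fun i hi => h i (Finset.mem_insert_of_mem hi))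

theorem Ex.of_coeff {P : k[X]} (h : P.coeff 0 ≠ 0) : Ex 0 P := ⟨P, by simp, h⟩

theorem strip {n W : ℕ} {P Q : k[X]} (hP : Ex n P) (h : X ^ W ∣ P * Q) : X ^ (W - n) ∣ Q := by
  obtain ⟨U, rfl, hU⟩ := hP
  rcases Nat.lt_or_ge n W with hn | hn
  · have h1 : (X : k[X]) ^ (W - n) ∣ U * Q := by
      have h2 : (X : k[X]) ^ n * X ^ (W - n) ∣ X ^ n * (U * Q) := by
        rw [← pow_add, show n + (W - n) = W by omega, ← mul_assoc]
        exact h
      exact (mul_dvd_mul_iff_left (pow_ne_zero _ X_ne_zero)).mp h2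
    refine (prime_X (R := k)).pow_dvd_of_dvd_mul_left _ ?_ h1
    rw [X_dvd_iff]
    exact hU
  · rw [show W - n = 0 by omega, pow_zero]
    exact one_dvd _

theorem coeff_coeff_swap (F : k[X][X]) (i j : ℕ) :
    ((Bivariate.swap F).coeff i).coeff j = (F.coeff j).coeff i := by
  induction F using Polynomial.induction_on' with
  | add p q hp hq => rw [map_add, coeff_add, coeff_add, coeff_add, coeff_add, hp, hq]
  | monomial n a =>
    induction a using Polynomial.induction_on' with
    | add p q hp hq => rw [map_add, map_add, coeff_add, coeff_add, coeff_add, coeff_add, hp, hq]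
    | monomial m r =>
      rw [Bivariate.swap_monomial_monomial]
      simp only [coeff_monomial]
      by_cases h1 : n = j <;> by_cases h2 : m = i <;> simp [h1, h2, coeff_monomial]

theorem natDegree_swap_le {F : k[X][X]} {D : ℕ} :
    (Bivariate.swap F).natDegree ≤ D ↔ ∀ i, (F.coeff i).natDegree ≤ D := by
  constructor
  · intro h i
    rw [natDegree_le_iff_coeff_eq_zero]
    intro N hN
    have h2 : (Bivariate.swap F).coeff N = 0 := coeff_eq_zero_of_natDegree_lt (by omega)
    rw [← coeff_coeff_swap, h2, Polynomial.coeff_zero]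
  · intro h
    rw [natDegree_le_iff_coeff_eq_zero]
    intro N hN
    ext j
    have h1 := h j
    have h2 : (F.coeff j).coeff N = 0 := coeff_eq_zero_of_natDegree_lt (by omega)
    rw [coeff_coeff_swap, h2, Polynomial.coeff_zero]

theorem natDegree_diag_le (F : k[X][X]) :
    (F.eval X).natDegree ≤ (Bivariate.swap F).natDegree + F.natDegree := by
  rw [eval_eq_sum_range]
  refine natDegree_sum_le_of_forall_le _ _ fun j hj => ?_
  have h1 := (natDegree_swap_le (F := F)).mp le_rfl j
  have h2 := Finset.mem_range.mp hj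
  refine natDegree_mul_le.trans ?_
  rw [natDegree_X_pow]
  omega

end Pool.Agent.Q153.SU
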