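import Pool.Agent.Q153.SU.Ric

set_option autoImplicit false

/-! Project SU (helper41), job N5 (helper153): Taylor expansions of rational functions. -/

namespace Pool.Agent.Q153.SU

open Finset
open Polynomial (aeval derivative X C natDegree rootMultiplicity)
open Pool.Agent.Q41.SU (hcm rf wr Inv Stab S_inv)

universe u

variable {E : Type u} [Field E]

/-- the point `z + F` -/
noncomputable abbrev pt (z : E) (F : PowerSeries E) : PowerSeries E := PowerSeries.C z + F

/-- the Taylor expansion at `y` -/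
noncomputable abbrev ty (y : E) (A : Polynomial E) : PowerSeries E := aeval (pt y PowerSeries.X) A

theorem cc_aeval (x : PowerSeries E) (A : Polynomial E) :
    PowerSeries.constantCoeff (aeval x A) = A.eval (PowerSeries.constantCoeff x) := by
  induction A using Polynomial.induction_on' with
  | add p q hp hq => rw [map_add, map_add, Polynomial.eval_add, hp, hq]
  | monomial n a =>
    rw [Polynomial.aeval_monomial, Polynomial.eval_monomial, map_mul, map_pow]
    rfl

theorem cc_pt {z : E} {F : PowerSeries E} (hF : PowerSeries.constantCoeff F = 0) :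
    PowerSeries.constantCoeff (pt z F) = z := by
  rw [map_add, hF, add_zero, PowerSeries.constantCoeff_C]

theorem cc_ty (y : E) (A : Polynomial E) : PowerSeries.constantCoeff (ty y A) = A.eval y := by
  rw [cc_aeval, cc_pt PowerSeries.constantCoeff_X]

theorem factor {A : Polynomial E} (hA : A ≠ 0) (y : E) :
    ∃ (a : ℕ) (A₁ : Polynomial E), A = (X - C y) ^ a * A₁ ∧ A₁.eval y ≠ 0 := by
  obtain ⟨A₁, h1, h2⟩ := Polynomial.exists_eq_pow_rootMultiplicity_mul_and_not_dvd A hA y
  refine ⟨_, A₁, h1, fun h => h2 ?_⟩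
  rw [Polynomial.dvd_iff_isRoot]
  exact h

theorem aeval_factor (z : E) (F : PowerSeries E) {A A₁ : Polynomial E} {a : ℕ}
    (h : A = (X - C z) ^ a * A₁) : aeval (pt z F) A = F ^ a * aeval (pt z F) A₁ := by
  rw [h, map_mul, map_pow, map_sub, Polynomial.aeval_X, Polynomial.aeval_C]
  congr 2
  change PowerSeries.C z + F - PowerSeries.C z = F
  ring

theorem ne_of_cc {F : PowerSeries E} (h : PowerSeries.constantCoeff F ≠ 0) : F ≠ 0 := by
  rintro rfl
  exact h (map_zero _)

theorem aeval_pt_ne {z : E} {F : PowerSeries E} (hF0 : PowerSeries.constantCoeff F = 0)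
    (hF : F ≠ 0) {A : Polynomial E} (hA : A ≠ 0) : aeval (pt z F) A ≠ 0 := by
  obtain ⟨a, A₁, h1, h2⟩ := factor hA z
  rw [aeval_factor z F h1]
  refine mul_ne_zero (pow_ne_zero _ hF) (ne_of_cc ?_)
  rw [cc_aeval, cc_pt hF0]
  exact h2

theorem ty_ne {y : E} {A : Polynomial E} (hA : A ≠ 0) : ty y A ≠ 0 :=
  aeval_pt_ne PowerSeries.constantCoeff_X PowerSeries.X_ne_zero hA

theorem ty_inj {y : E} {A B : Polynomial E} (h : ty y A = ty y B) : A = B := by
  by_contra hne
  have h1 : ty y (A - B) ≠ 0 := ty_ne (sub_ne_zero.mpr hne)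
  apply h1
  have h2 : ty y (A - B) = ty y A - ty y B := map_sub _ _ _
  rw [h2]
  exact sub_eq_zero.mpr h

/-- derivative of the value at a point -/
theorem d_aeval (x : PowerSeries E) (A : Polynomial E) :
    PowerSeries.derivative E (aeval x A) = aeval x (derivative A) * PowerSeries.derivative E x := by
  have h := Derivation.comp_aeval_eq (a := x) (PowerSeries.derivative E) A
  rw [smul_eq_mul] at h
  exact h

theorem d_pt (z : E) (F : PowerSeries E) :
    PowerSeries.derivative E (pt z F) = PowerSeries.derivative E F := by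
  rw [map_add]
  have h : PowerSeries.derivative E (PowerSeries.C z) = 0 := by
    change PowerSeries.derivative E (algebraMap E (PowerSeries E) z) = 0
    exact (PowerSeries.derivative E).map_algebraMap z
  rw [h, zero_add]

theorem d_ty (y : E) (A : Polynomial E) :
    PowerSeries.derivative E (ty y A) = ty y (derivative A) := by
  rw [d_aeval, d_pt]
  have h : PowerSeries.derivative E (PowerSeries.X : PowerSeries E) = 1 := by
    simp
  rw [h, mul_one]

/-- substitution as an algebra homomorphism -/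
noncomputable abbrev sg {F : PowerSeries E} (hF0 : PowerSeries.constantCoeff F = 0) :
    PowerSeries E →ₐ[E] PowerSeries E :=
  PowerSeries.substAlgHom (PowerSeries.HasSubst.of_constantCoeff_zero' hF0)

theorem sg_X {F : PowerSeries E} (hF0 : PowerSeries.constantCoeff F = 0) :
    sg hF0 PowerSeries.X = F := PowerSeries.substAlgHom_X _

theorem sg_C {F : PowerSeries E} (hF0 : PowerSeries.constantCoeff F = 0) (z : E) :
    sg hF0 (PowerSeries.C z) = PowerSeries.C z := (sg hF0).commutes z

theorem sg_pt {F : PowerSeries E} (hF0 : PowerSeries.constantCoeff F = 0) (z : E)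
    (G : PowerSeries E) : sg hF0 (pt z G) = pt z (sg hF0 G) := by
  rw [map_add, sg_C]

theorem sg_aeval {F : PowerSeries E} (hF0 : PowerSeries.constantCoeff F = 0) (x : PowerSeries E)
    (A : Polynomial E) : sg hF0 (aeval x A) = aeval (sg hF0 x) A :=
  (Polynomial.aeval_algHom_apply (sg hF0) x A).symm

theorem sg_ty {F : PowerSeries E} (hF0 : PowerSeries.constantCoeff F = 0) (z : E)
    (A : Polynomial E) : sg hF0 (ty z A) = aeval (pt z F) A := by
  rw [sg_aeval, sg_pt, sg_X]

theorem sg_d {F : PowerSeries E} (hF0 : PowerSeries.constantCoeff F = 0) (G : PowerSeries E) :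
    PowerSeries.derivative E (sg hF0 G) =
      sg hF0 (PowerSeries.derivative E G) * PowerSeries.derivative E F := by
  have h := PowerSeries.derivative_subst (f := G) (g := F)
    (PowerSeries.HasSubst.of_constantCoeff_zero' hF0)
  rw [← PowerSeries.coe_substAlgHom] at h
  exact h

theorem sg_cc {F : PowerSeries E} (hF0 : PowerSeries.constantCoeff F = 0) (G : PowerSeries E) :
    PowerSeries.constantCoeff (sg hF0 G) = PowerSeries.constantCoeff G := by
  have h1 : PowerSeries.X ∣ G - PowerSeries.C (PowerSeries.constantCoeff G) := by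
    rw [PowerSeries.X_dvd_iff, map_sub, PowerSeries.constantCoeff_C, sub_self]
  obtain ⟨H, hH⟩ := h1
  have h2 : G = PowerSeries.C (PowerSeries.constantCoeff G) + PowerSeries.X * H := by
    rw [← hH]
    ring
  conv_lhs => rw [h2]
  rw [map_add, map_mul, sg_C, sg_X, map_add, map_mul, hF0, zero_mul, add_zero,
    PowerSeries.constantCoeff_C]

theorem coeff_one_eq (F : PowerSeries E) : PowerSeries.coeff 1 F =
    PowerSeries.constantCoeff (PowerSeries.derivative E F) := by
  rw [← PowerSeries.coeff_zero_eq_constantCoeff_apply, PowerSeries.coeff_derivative]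
  simp

theorem sg_coeff_one {F : PowerSeries E} (hF0 : PowerSeries.constantCoeff F = 0)
    (G : PowerSeries E) :
    PowerSeries.coeff 1 (sg hF0 G) = PowerSeries.coeff 1 G * PowerSeries.coeff 1 F := by
  rw [coeff_one_eq, coeff_one_eq, coeff_one_eq, sg_d, map_mul, sg_cc]

/-- the relation of the expansions: `e(z + F) = (F') ^ l e(y + T)`, `e = A / B` -/
def Rl (l : ℕ) (A B : Polynomial E) (y z : E) (F : PowerSeries E) : Prop :=
  aeval (pt z F) A * ty y B = (PowerSeries.derivative E F) ^ l * (ty y A * aeval (pt z F) B)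

theorem Rl.comp {l : ℕ} {A B : Polynomial E} {y z w : E} {F G : PowerSeries E} (hB : B ≠ 0)
    (hF0 : PowerSeries.constantCoeff F = 0) (hF : F ≠ 0) (h1 : Rl l A B y z F)
    (h2 : Rl l A B z w G) : Rl l A B y w (sg hF0 G) := by
  unfold Rl at h1 h2 ⊢
  have h3 := congrArg (sg hF0) h2
  simp only [map_mul, map_pow, sg_ty] at h3
  rw [sg_aeval, sg_aeval, sg_pt] at h3
  rw [sg_d]
  apply mul_right_cancel₀ (aeval_pt_ne (z := z) hF0 hF hB)
  linear_combination (ty y B) * h3 +
    (sg hF0 (PowerSeries.derivative E G)) ^ l * aeval (pt w (sg hF0 G)) B * h1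

theorem unit_cmp {m n : ℕ} {U V : PowerSeries E} (hU : PowerSeries.constantCoeff U ≠ 0)
    (hV : PowerSeries.constantCoeff V ≠ 0) (h : PowerSeries.X ^ m * U = PowerSeries.X ^ n * V) :
    m = n ∧ U = V := by
  have key : ∀ (m n : ℕ) (U V : PowerSeries E), PowerSeries.constantCoeff U ≠ 0 → m ≤ n →
      PowerSeries.X ^ m * U = PowerSeries.X ^ n * V → m = n ∧ U = V := by
    intro m n U V hU hmn h
    obtain ⟨d, rfl⟩ := Nat.exists_eq_add_of_le hmn
    rw [pow_add, mul_assoc] at h
    have h1 := mul_left_cancel₀ (pow_ne_zero m (PowerSeries.X_ne_zero (R := E))) h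
    rcases Nat.eq_zero_or_pos d with hd | hd
    · rw [hd, pow_zero, one_mul] at h1
      exact ⟨by omega, h1⟩
    · exfalso
      apply hU
      rw [h1, map_mul, map_pow, PowerSeries.constantCoeff_X, zero_pow (by omega), zero_mul]
  rcases le_total m n with hmn | hmn
  · exact key m n U V hU hmn h
  · obtain ⟨h1, h2⟩ := key n m V U hV hmn h.symm
    exact ⟨h1.symm, h2.symm⟩

/-- comparison of the leading terms -/
theorem Rl.ord [CharZero E] {l : ℕ} {A B : Polynomial E} {y z : E} {F W : PowerSeries E}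
    (h : Rl l A B y z F) {e : ℕ} (he : 1 ≤ e) (hFW : F = PowerSeries.X ^ e * W)
    (hW : PowerSeries.constantCoeff W ≠ 0) {a b a' b' : ℕ} {A₁ B₁ A₂ B₂ : Polynomial E}
    (hA₁ : A = (X - C y) ^ a * A₁) (hA₁' : A₁.eval y ≠ 0)
    (hB₁ : B = (X - C y) ^ b * B₁) (hB₁' : B₁.eval y ≠ 0)
    (hA₂ : A = (X - C z) ^ a' * A₂) (hA₂' : A₂.eval z ≠ 0)
    (hB₂ : B = (X - C z) ^ b' * B₂) (hB₂' : B₂.eval z ≠ 0) :
    e * a' + b = (e - 1) * l + a + e * b' ∧
      (PowerSeries.constantCoeff W) ^ a' * A₂.eval z * B₁.eval y =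
      (e * PowerSeries.constantCoeff W) ^ l * A₁.eval y *
        ((PowerSeries.constantCoeff W) ^ b' * B₂.eval z) := by
  obtain ⟨n, rfl⟩ : ∃ n, e = n + 1 := ⟨e - 1, by omega⟩
  have hF0 : PowerSeries.constantCoeff F = 0 := by
    rw [hFW, map_mul, map_pow, PowerSeries.constantCoeff_X, zero_pow (by omega), zero_mul]
  have hd : PowerSeries.derivative E F = PowerSeries.X ^ n *
      (((n + 1 : ℕ) : PowerSeries E) * W + PowerSeries.X * PowerSeries.derivative E W) := by
    rw [hFW, Derivation.leibniz, Derivation.leibniz_pow]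
    have h1 : PowerSeries.derivative E (PowerSeries.X : PowerSeries E) = 1 := by simp
    rw [h1, Nat.add_sub_cancel, smul_eq_mul, smul_eq_mul, smul_eq_mul, nsmul_eq_mul, mul_one,
      pow_succ]
    ring
  unfold Rl at h
  have hty : ∀ {A A₁ : Polynomial E} {a : ℕ}, A = (X - C y) ^ a * A₁ →
      ty y A = PowerSeries.X ^ a * ty y A₁ := fun h => aeval_factor y _ h
  rw [aeval_factor z F hA₂, aeval_factor z F hB₂, hty hA₁, hty hB₁, hd] at h
  have hFp : ∀ i : ℕ, F ^ i = PowerSeries.X ^ ((n + 1) * i) * W ^ i := by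
    intro i
    rw [hFW, mul_pow, ← pow_mul]
  have h1 : PowerSeries.X ^ ((n + 1) * a' + b) * (W ^ a' * aeval (pt z F) A₂ * ty y B₁) =
      PowerSeries.X ^ (n * l + a + (n + 1) * b') *
        ((((n + 1 : ℕ) : PowerSeries E) * W + PowerSeries.X * PowerSeries.derivative E W) ^ l *
          ty y A₁ * (W ^ b' * aeval (pt z F) B₂)) := by
    have e1 : PowerSeries.X ^ ((n + 1) * a' + b) * (W ^ a' * aeval (pt z F) A₂ * ty y B₁) =
        F ^ a' * aeval (pt z F) A₂ * (PowerSeries.X ^ b * ty y B₁) := by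
      rw [hFp a', pow_add]
      ring
    have e2 : PowerSeries.X ^ (n * l + a + (n + 1) * b') *
        ((((n + 1 : ℕ) : PowerSeries E) * W + PowerSeries.X * PowerSeries.derivative E W) ^ l *
          ty y A₁ * (W ^ b' * aeval (pt z F) B₂)) =
        (PowerSeries.X ^ n * (((n + 1 : ℕ) : PowerSeries E) * W +
          PowerSeries.X * PowerSeries.derivative E W)) ^ l *
          (PowerSeries.X ^ a * ty y A₁ * (F ^ b' * aeval (pt z F) B₂)) := by
      rw [hFp b', mul_pow (PowerSeries.X ^ n), ← pow_mul, pow_add, pow_add]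
      ring
    rw [e1, e2]
    exact h
  have hc1 : PowerSeries.constantCoeff (W ^ a' * aeval (pt z F) A₂ * ty y B₁) =
      (PowerSeries.constantCoeff W) ^ a' * A₂.eval z * B₁.eval y := by
    rw [map_mul, map_mul, map_pow, cc_aeval, cc_pt hF0, cc_ty]
  have hc2 : PowerSeries.constantCoeff
      ((((n + 1 : ℕ) : PowerSeries E) * W + PowerSeries.X * PowerSeries.derivative E W) ^ l *
          ty y A₁ * (W ^ b' * aeval (pt z F) B₂)) =
      (((n + 1 : ℕ) : E) * PowerSeries.constantCoeff W) ^ l * A₁.eval y *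
        ((PowerSeries.constantCoeff W) ^ b' * B₂.eval z) := by
    rw [map_mul, map_mul, map_pow, map_add, map_mul, map_mul, PowerSeries.constantCoeff_X,
      zero_mul, add_zero, map_natCast, map_mul, map_pow, cc_ty, cc_aeval, cc_pt hF0]
  have hn : ((n + 1 : ℕ) : E) ≠ 0 := Nat.cast_ne_zero.mpr (by omega)
  obtain ⟨h2, h3⟩ := unit_cmp (by
    rw [hc1]
    exact mul_ne_zero (mul_ne_zero (pow_ne_zero _ hW) hA₂') hB₁') (by
    rw [hc2]
    exact mul_ne_zero (mul_ne_zero (pow_ne_zero _ (mul_ne_zero hn hW)) hA₁')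
      (mul_ne_zero (pow_ne_zero _ hW) hB₂')) h1
  refine ⟨by rw [Nat.add_sub_cancel]; exact h2, ?_⟩
  rw [← hc1, ← hc2, h3]

end Pool.Agent.Q153.SU
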