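import Pool.Agent.Q153.SU.Inv1

set_option autoImplicit false

/-! Project SU (helper41), job N5 (helper153): no invariant differentials. -/

namespace Pool.Agent.Q153.SU

open Finset
open Polynomial (aeval derivative X C)
open Pool.Agent.Q41.SU (hcm rf wr Inv Stab S_inv)

universe u

variable {E : Type u} [Field E]

/-- homogenised polynomials in power series -/
theorem ty_hcm {d : ℕ} {A u v : Polynomial E} {y : E} {s : PowerSeries E}
    (hs : ty y u = ty y v * s) (hA : A.natDegree ≤ d) :
    ty y (hcm d A u v) = (ty y v) ^ d * aeval s A := by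
  have h0 : ty y (hcm d A u v) =
      ∑ i ∈ range (d + 1), PowerSeries.C (A.coeff i) * ty y u ^ i * ty y v ^ (d - i) := by
    unfold hcm
    simp only [ty, map_sum, map_mul, map_pow, Polynomial.aeval_C]
    rfl
  rw [h0, Polynomial.aeval_eq_sum_range' (Nat.lt_succ_iff.mpr hA), Finset.mul_sum]
  refine Finset.sum_congr rfl fun i hi => ?_
  have hi' : i ≤ d := Nat.lt_succ_iff.mp (Finset.mem_range.mp hi)
  have h1 : (ty y v) ^ d = (ty y v) ^ i * (ty y v) ^ (d - i) := by
    rw [← pow_add, show i + (d - i) = d by omega]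
  rw [h1, hs, mul_pow, Algebra.smul_def]
  change PowerSeries.C (A.coeff i) * _ * _ = _ * (PowerSeries.C (A.coeff i) * _)
  ring

/-- the relation of the expansions -/
theorem Rl_of_Inv {p q A B : Polynomial E} {l : ℕ} (hq : q ≠ 0) (hInv : Inv p q l A B) {y z : E}
    {F : PowerSeries E} (hF : ty y p = ty y q * pt z F) : Rl l A B y z F := by
  obtain ⟨n, hn⟩ : ∃ n, n = max A.natDegree B.natDegree := ⟨_, rfl⟩
  have hA : A.natDegree ≤ n := by
    rw [hn]
    exact le_max_left _ _
  have hB : B.natDegree ≤ n := by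
    rw [hn]
    exact le_max_right _ _
  have hq' := am_ne hq
  have hpoly : hcm n A p q * B * (q ^ 2) ^ l = wr p q ^ l * (A * hcm n B p q) := by
    apply am_inj
    unfold Pool.Agent.Q41.SU.Inv at hInv
    have h2 : rf (wr p q) (q ^ 2) * algebraMap (Polynomial E) (RatFunc E) q ^ 2 =
        algebraMap (Polynomial E) (RatFunc E) (wr p q) := by
      unfold rf
      rw [map_pow, div_mul_cancel₀ _ (pow_ne_zero _ hq')]
    rw [map_mul, map_mul, map_pow, map_pow, map_mul, map_pow, map_mul, hcm_spec hq hA,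
      hcm_spec hq hB, ← h2, mul_pow]
    linear_combination (algebraMap (Polynomial E) (RatFunc E) q ^ n *
      (algebraMap (Polynomial E) (RatFunc E) q ^ 2) ^ l) * hInv
  have hd : ty y q ^ 2 * PowerSeries.derivative E F = ty y (wr p q) := by
    have h1 := congrArg (PowerSeries.derivative E) hF
    rw [d_ty, Derivation.leibniz, d_ty, d_pt, smul_eq_mul, smul_eq_mul] at h1
    have h2 : ty y (wr p q) = ty y (derivative p) * ty y q - ty y p * ty y (derivative q) := by
      unfold wr
      simp only [ty, map_sub, map_mul]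
    rw [h2, h1, hF]
    ring
  have h := congrArg (ty y) hpoly
  have e1 : ty y (hcm n A p q * B * (q ^ 2) ^ l) =
      ty y (hcm n A p q) * ty y B * (ty y q ^ 2) ^ l := by
    simp only [ty, map_mul, map_pow]
  have e2 : ty y (wr p q ^ l * (A * hcm n B p q)) =
      ty y (wr p q) ^ l * (ty y A * ty y (hcm n B p q)) := by
    simp only [ty, map_mul, map_pow]
  rw [e1, e2, ty_hcm hF hA, ty_hcm hF hB, ← hd, mul_pow (ty y q ^ 2)] at h
  unfold Rl
  apply mul_left_cancel₀ (mul_ne_zero (pow_ne_zero n (ty_ne (y := y) hq))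
    (pow_ne_zero l (pow_ne_zero 2 (ty_ne (y := y) hq))))
  linear_combination h

/-- the expansion of `p / q` at `z` without the constant term -/
noncomputable def ser (p q : Polynomial E) (z : E) : PowerSeries E :=
  ty z p * (ty z q)⁻¹ - PowerSeries.C (p.eval z / q.eval z)

theorem ser_spec {p q : Polynomial E} {z : E} (hz : q.eval z ≠ 0) :
    PowerSeries.constantCoeff (ser p q z) = 0 ∧
      ty z p = ty z q * pt (p.eval z / q.eval z) (ser p q z) := by
  have h1 : PowerSeries.constantCoeff (ty z q) ≠ 0 := by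
    rw [cc_ty]
    exact hz
  constructor
  · unfold ser
    rw [map_sub, map_mul, PowerSeries.constantCoeff_inv, cc_ty, cc_ty, PowerSeries.constantCoeff_C,
      div_eq_mul_inv, sub_self]
  · have h2 : pt (p.eval z / q.eval z) (ser p q z) = ty z p * (ty z q)⁻¹ := by
      unfold ser
      change PowerSeries.C (p.eval z / q.eval z) + (ty z p * (ty z q)⁻¹ -
        PowerSeries.C (p.eval z / q.eval z)) = _
      ring
    rw [h2, mul_left_comm, PowerSeries.mul_inv_cancel _ h1, mul_one]

/-- a unit denominator -/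
theorem deg_zero {u v w : Polynomial E} (huv : IsCoprime u v) (h : u = v * w) :
    v.natDegree = 0 :=
  Polynomial.natDegree_eq_zero_of_isUnit (huv.isUnit_of_dvd' ⟨w, h⟩ dvd_rfl)

theorem F_ne {u v : Polynomial E} {y z : E} {F : PowerSeries E} {D : ℕ} (hD : 1 ≤ D)
    (huv : IsCoprime u v) (hc : u.coeff D ≠ 0 ∨ v.coeff D ≠ 0)
    (h : ty y u = ty y v * pt z F) : F ≠ 0 := by
  rintro rfl
  have h1 : ty y u = ty y (v * C z) := by
    have h2 : ty y (v * C z) = ty y v * PowerSeries.C z := by
      simp only [ty, map_mul, Polynomial.aeval_C]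
      rfl
    rw [h2, h]
    change ty y v * (PowerSeries.C z + 0) = _
    rw [add_zero]
  have h2 := ty_inj h1
  have h3 := deg_zero huv h2
  have h4 : u.natDegree = 0 := by
    have h5 : u.natDegree ≤ v.natDegree + (C z : Polynomial E).natDegree := by
      rw [h2]
      exact Polynomial.natDegree_mul_le
    rw [Polynomial.natDegree_C] at h5
    omega
  rcases hc with h | h
  · exact h (Polynomial.coeff_eq_zero_of_natDegree_lt (by omega))
  · exact h (Polynomial.coeff_eq_zero_of_natDegree_lt (by omega))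

theorem F_ne_X {u v : Polynomial E} {y : E} {F : PowerSeries E} {D : ℕ} (hD : 2 ≤ D)
    (huv : IsCoprime u v) (hc : u.coeff D ≠ 0 ∨ v.coeff D ≠ 0)
    (h : ty y u = ty y v * pt y F) : F ≠ PowerSeries.X := by
  rintro rfl
  have h1 : ty y u = ty y (v * X) := by
    have h2 : ty y (v * X) = ty y v * pt y PowerSeries.X := by
      simp only [ty, map_mul, Polynomial.aeval_X]
    rw [h2, h]
  have h2 := ty_inj h1
  have h3 := deg_zero huv h2
  have h4 : u.natDegree ≤ 1 := by
    have h5 : u.natDegree ≤ v.natDegree + (X : Polynomial E).natDegree := by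
      rw [h2]
      exact Polynomial.natDegree_mul_le
    rw [Polynomial.natDegree_X] at h5
    omega
  rcases hc with h | h
  · exact h (Polynomial.coeff_eq_zero_of_natDegree_lt (by omega))
  · exact h (Polynomial.coeff_eq_zero_of_natDegree_lt (by omega))

/-- the expansions of the iterates -/
theorem iter {p q : Polynomial E} (hpq : IsCoprime p q) {N : ℕ}
    (hN : N = max p.natDegree q.natDegree) (hN2 : 2 ≤ N) (hq : q ≠ 0) {P : Finset E}
    (hP : Stab p q P) {A B : Polynomial E} {l : ℕ} (hB : B ≠ 0) (hInv : Inv p q l A B)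
    (f : E → E) (hf : ∀ y, f y = p.eval y / q.eval y) :
    ∀ m : ℕ, ∀ y ∈ P, ∃ (u v : Polynomial E) (F : PowerSeries E),
      IsCoprime u v ∧ u.natDegree ≤ N ^ m ∧ v.natDegree ≤ N ^ m ∧
      (u.coeff (N ^ m) ≠ 0 ∨ v.coeff (N ^ m) ≠ 0) ∧ v.eval y ≠ 0 ∧ f^[m] y ∈ P ∧
      ty y u = ty y v * pt (f^[m] y) F ∧ PowerSeries.constantCoeff F = 0 ∧ F ≠ 0 ∧
      Rl l A B y (f^[m] y) F ∧
      PowerSeries.coeff 1 F = ∏ i ∈ range m, PowerSeries.coeff 1 (ser p q (f^[i] y)) := by
  intro m
  induction m with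
  | zero =>
    intro y hy
    refine ⟨X, 1, PowerSeries.X, isCoprime_one_right, ?_, ?_, ?_, ?_, hy, ?_,
      PowerSeries.constantCoeff_X, PowerSeries.X_ne_zero, ?_, ?_⟩
    · rw [Polynomial.natDegree_X, pow_zero]
    · rw [Polynomial.natDegree_one, pow_zero]
      exact Nat.zero_le _
    · left
      rw [pow_zero, Polynomial.coeff_X_one]
      exact one_ne_zero
    · rw [Polynomial.eval_one]
      exact one_ne_zero
    · simp only [ty, Polynomial.aeval_X, map_one, one_mul, Function.iterate_zero, id]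
    · unfold Rl
      have h1 : PowerSeries.derivative E (PowerSeries.X : PowerSeries E) = 1 := by simp
      rw [h1, one_pow, one_mul]
      rfl
    · rw [range_zero, prod_empty]
      exact PowerSeries.coeff_one_X
  | succ m ih =>
    intro y hy
    obtain ⟨u, v, F, h1, h2, h3, h4, h5, h6, h7, h8, h9, h10, h11⟩ := ih y hy
    obtain ⟨z, hz⟩ : ∃ z, z = f^[m] y := ⟨_, rfl⟩
    rw [← hz] at h6 h7 h10
    obtain ⟨hqz, hfz⟩ := hP z h6
    rw [← hf] at hfz
    obtain ⟨hG0, hG⟩ := ser_spec (p := p) hqz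
    rw [← hf] at hG
    have hv0 : v ≠ 0 := by
      rintro rfl
      exact h5 (Polynomial.eval_zero)
    have hpN : p.natDegree ≤ N := by
      rw [hN]
      exact le_max_left _ _
    have hqN : q.natDegree ≤ N := by
      rw [hN]
      exact le_max_right _ _
    have hmax : p.coeff N ≠ 0 ∨ q.coeff N ≠ 0 := by
      rw [hN]
      exact max_coeff (by omega)
    have e1 : aeval (pt z F) p = aeval (pt z F) q * pt (f z) (sg h8 (ser p q z)) := by
      rw [← sg_ty h8, hG, map_mul, sg_ty, sg_pt]
    have huv' : IsCoprime (hcm N p u v) (hcm N q u v) := hcm_coprime hpq hpN hqN hmax h1 hv0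
    have hc' : (hcm N p u v).coeff (N ^ m * N) ≠ 0 ∨ (hcm N q u v).coeff (N ^ m * N) ≠ 0 :=
      top_ne hpq hpN hqN hmax h2 h3 h4
    have hty' : ty y (hcm N p u v) =
        ty y (hcm N q u v) * pt (f z) (sg h8 (ser p q z)) := by
      rw [ty_hcm h7 hpN, ty_hcm h7 hqN, e1, mul_assoc]
    have hpos : 1 ≤ N ^ m * N := by
      have := Nat.pos_of_ne_zero (pow_ne_zero m (show N ≠ 0 by omega))
      exact Nat.mul_pos this (by omega)
    refine ⟨hcm N p u v, hcm N q u v, sg h8 (ser p q z), huv', ?_, ?_, ?_, ?_, ?_, ?_, ?_, ?_, ?_, ?_⟩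
    · rw [pow_succ]
      exact hcm_natDegree h2 h3
    · rw [pow_succ]
      exact hcm_natDegree h2 h3
    · rw [pow_succ]
      exact hc'
    · rw [← cc_ty, ty_hcm h7 hqN, map_mul, map_pow, cc_ty, cc_aeval, cc_pt h8]
      exact mul_ne_zero (pow_ne_zero _ h5) hqz
    · rw [Function.iterate_succ_apply', ← hz]
      exact hfz
    · rw [Function.iterate_succ_apply', ← hz]
      exact hty'
    · rw [sg_cc]
      exact hG0
    · exact F_ne hpos huv' hc' hty'
    · rw [Function.iterate_succ_apply', ← hz]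
      exact Rl.comp hB h8 h9 h10 (Rl_of_Inv hq hInv hG)
    · rw [sg_coeff_one, h11, prod_range_succ, ← hz, mul_comm]

/-- products over periods -/
theorem prod_period (c : ℕ → E) (M : ℕ) (hc : ∀ i, c (i + M) = c i) (n : ℕ) :
    ∏ i ∈ range (M * n), c i = (∏ i ∈ range M, c i) ^ n := by
  have hc' : ∀ n i, c (M * n + i) = c i := by
    intro n
    induction n with
    | zero =>
      intro i
      rw [Nat.mul_zero, Nat.zero_add]
    | succ n ih =>
      intro i
      rw [Nat.mul_succ, show M * n + M + i = M * n + i + M by omega, hc, ih]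
  induction n with
  | zero => rw [Nat.mul_zero, range_zero, prod_empty, pow_zero]
  | succ n ih =>
    rw [Nat.mul_succ, prod_range_add, ih, pow_succ]
    congr 1
    exact Finset.prod_congr rfl fun i _ => hc' n i

/-- tangent to the identity -/
theorem tangent [CharZero E] {l : ℕ} (hl : 1 ≤ l) {A B : Polynomial E} {y : E}
    {F : PowerSeries E} (h : Rl l A B y y F) (hF0 : PowerSeries.constantCoeff F = 0)
    (hF1 : PowerSeries.coeff 1 F = 1) (hFX : F ≠ PowerSeries.X) {a b : ℕ} {A₁ B₁ : Polynomial E}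
    (hA₁ : A = (X - C y) ^ a * A₁) (hA₁' : A₁.eval y ≠ 0)
    (hB₁ : B = (X - C y) ^ b * B₁) (hB₁' : B₁.eval y ≠ 0) : l + b < a := by
  obtain ⟨G, hG⟩ := PowerSeries.X_dvd_iff.mpr hF0
  have hG1 : PowerSeries.constantCoeff G = 1 := by
    rw [← hF1, hG, show (1 : ℕ) = 0 + 1 from rfl, PowerSeries.coeff_succ_X_mul,
      PowerSeries.coeff_zero_eq_constantCoeff_apply]
  have hG0 : G - 1 ≠ 0 := by
    intro h0
    apply hFX
    rw [hG, sub_eq_zero.mp h0, mul_one]
  obtain ⟨r, H, hGH, hH⟩ : ∃ (r : ℕ) (H : PowerSeries E), G - 1 = PowerSeries.X ^ r * H ∧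
      PowerSeries.constantCoeff H ≠ 0 := by
    refine ⟨_, _, (PowerSeries.X_pow_order_mul_divXPowOrder (f := G - 1)).symm, ?_⟩
    intro h0
    exact hG0 (PowerSeries.constantCoeff_divXPowOrder_eq_zero_iff.mp h0)
  have hr : 1 ≤ r := by
    by_contra hr0
    have hr1 : r = 0 := by omega
    rw [hr1, pow_zero, one_mul] at hGH
    apply hH
    rw [← hGH, map_sub, hG1, map_one, sub_self]
  have hGe : G = 1 + PowerSeries.X ^ r * H := by
    rw [← hGH]
    ring
  -- the quotient by `T ^ (r + 1)`
  obtain ⟨π, hπ⟩ : ∃ π : PowerSeries E →ₐ[E]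
      (PowerSeries E ⧸ Ideal.span {(PowerSeries.X : PowerSeries E) ^ (r + 1)}),
      π = Ideal.Quotient.mkₐ E _ := ⟨_, rfl⟩
  have hker : ∀ x, π x = 0 ↔ PowerSeries.X ^ (r + 1) ∣ x := by
    intro x
    rw [hπ, Ideal.Quotient.mkₐ_eq_mk, Ideal.Quotient.eq_zero_iff_mem, Ideal.mem_span_singleton]
  obtain ⟨τ, hτ⟩ : ∃ τ, τ = π (PowerSeries.X ^ r * H) := ⟨_, rfl⟩
  have hτ2 : τ * τ = 0 := by
    rw [hτ, ← map_mul, hker]
    refine ⟨PowerSeries.X ^ (r - 1) * H * H, ?_⟩
    have : (PowerSeries.X : PowerSeries E) ^ r * PowerSeries.X ^ r =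
        PowerSeries.X ^ (r + 1) * PowerSeries.X ^ (r - 1) := by
      rw [← pow_add, ← pow_add]
      congr 1
      omega
    calc PowerSeries.X ^ r * H * (PowerSeries.X ^ r * H) =
        (PowerSeries.X ^ r * PowerSeries.X ^ r) * (H * H) := by ring
      _ = _ := by rw [this]; ring
  have hpw : ∀ (n : ℕ) (c : E), (1 + algebraMap E _ c * τ) ^ n = 1 + algebraMap E _ (n * c) * τ := by
    intro n c
    induction n with
    | zero => simp
    | succ n ih =>
      rw [pow_succ (1 + algebraMap E _ c * τ) n, ih]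
      have h1 : (1 + algebraMap E _ ((n : E) * c) * τ) * (1 + algebraMap E _ c * τ) =
          1 + (algebraMap E _ ((n : E) * c) + algebraMap E _ c) * τ +
          algebraMap E _ ((n : E) * c) * algebraMap E _ c * (τ * τ) := by ring
      rw [h1, hτ2, mul_zero, add_zero, ← map_add]
      congr 3
      push_cast
      ring
  have hπG : π G = 1 + algebraMap E _ 1 * τ := by
    rw [hGe, map_add, map_one, ← hτ, map_one, one_mul]
  have hdG : PowerSeries.derivative E F = 1 + PowerSeries.C ((r : E) + 1) * (PowerSeries.X ^ r * H) +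
      PowerSeries.X ^ (r + 1) * PowerSeries.derivative E H := by
    have h1 : PowerSeries.derivative E (PowerSeries.X : PowerSeries E) = 1 := by simp
    have h1' : PowerSeries.derivative E (1 : PowerSeries E) = 0 :=
      (PowerSeries.derivative E).map_one_eq_zero
    obtain ⟨s, rfl⟩ : ∃ s, r = s + 1 := ⟨r - 1, by omega⟩
    rw [hG, hGe, Derivation.leibniz, map_add, h1', Derivation.leibniz, Derivation.leibniz_pow, h1]
    simp only [smul_eq_mul, nsmul_eq_mul, Nat.add_sub_cancel, mul_one, zero_add]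
    have h2 : PowerSeries.C (((s + 1 : ℕ) : E) + 1) = (((s + 1 : ℕ) : PowerSeries E) + 1) := by
      rw [map_add, map_natCast, map_one]
    rw [h2]
    push_cast
    ring
  have hπd : π (PowerSeries.derivative E F) = 1 + algebraMap E _ ((r : E) + 1) * τ := by
    rw [hdG, map_add, map_add, map_one, map_mul, ← hτ,
      (hker (PowerSeries.X ^ (r + 1) * PowerSeries.derivative E H)).mpr ⟨_, rfl⟩, add_zero]
    congr 2
    exact π.commutes _
  have hπF : π F = π PowerSeries.X := by
    rw [← sub_eq_zero, ← map_sub, hker]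
    refine ⟨H, ?_⟩
    rw [hG, hGe, pow_succ]
    ring
  have hπa : ∀ A : Polynomial E, π (aeval (pt y F) A) = π (ty y A) := by
    intro A
    rw [← Polynomial.aeval_algHom_apply, ← Polynomial.aeval_algHom_apply]
    congr 2
    change π (PowerSeries.C y + F) = π (PowerSeries.C y + PowerSeries.X)
    rw [map_add, map_add, hπF]
  -- cancel the powers of `T`
  unfold Rl at h
  have hty : ∀ {A A₁ : Polynomial E} {a : ℕ}, A = (X - C y) ^ a * A₁ →
      ty y A = PowerSeries.X ^ a * ty y A₁ := fun h => aeval_factor y _ h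
  rw [aeval_factor y F hA₁, aeval_factor y F hB₁, hty hA₁, hty hB₁] at h
  have hFp : ∀ i : ℕ, F ^ i = PowerSeries.X ^ i * G ^ i := by
    intro i
    rw [hG, mul_pow]
  have h2 : G ^ a * aeval (pt y F) A₁ * ty y B₁ =
      (PowerSeries.derivative E F) ^ l * (ty y A₁ * (G ^ b * aeval (pt y F) B₁)) := by
    apply mul_left_cancel₀ (pow_ne_zero (a + b) (PowerSeries.X_ne_zero (R := E)))
    have e1 : PowerSeries.X ^ (a + b) * (G ^ a * aeval (pt y F) A₁ * ty y B₁) =
        F ^ a * aeval (pt y F) A₁ * (PowerSeries.X ^ b * ty y B₁) := by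
      rw [hFp a, pow_add]
      ring
    have e2 : PowerSeries.X ^ (a + b) * ((PowerSeries.derivative E F) ^ l *
        (ty y A₁ * (G ^ b * aeval (pt y F) B₁))) =
        (PowerSeries.derivative E F) ^ l * (PowerSeries.X ^ a * ty y A₁ *
          (F ^ b * aeval (pt y F) B₁)) := by
      rw [hFp b, pow_add]
      ring
    rw [e1, e2]
    exact h
  have h3 := congrArg π h2
  rw [map_mul, map_mul, map_pow, map_mul, map_pow, map_mul, map_mul, map_pow, hπa, hπa, hπG, hπd,
    hpw, hpw, hpw] at h3
  obtain ⟨U, hU⟩ : ∃ U : PowerSeries E, ty y A₁ * ty y B₁ * U = 1 := by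
    refine ⟨(ty y A₁ * ty y B₁)⁻¹, PowerSeries.mul_inv_cancel _ ?_⟩
    rw [map_mul, cc_ty, cc_ty]
    exact mul_ne_zero hA₁' hB₁'
  have hU' : π (ty y A₁) * π (ty y B₁) * π U = 1 := by
    rw [← map_mul, ← map_mul, hU, map_one]
  have h4 : algebraMap E _ ((a : E) * 1 - (l * ((r : E) + 1) + b * 1)) * τ = 0 := by
    have h5 : (1 + algebraMap E _ ((a : E) * 1) * τ) =
        (1 + algebraMap E _ ((l : E) * ((r : E) + 1)) * τ) * (1 + algebraMap E _ ((b : E) * 1) * τ) := by
      calc (1 + algebraMap E _ ((a : E) * 1) * τ) =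
          (1 + algebraMap E _ ((a : E) * 1) * τ) * (π (ty y A₁) * π (ty y B₁) * π U) := by
            rw [hU']
            ring
        _ = (1 + algebraMap E _ ((l : E) * ((r : E) + 1)) * τ) *
            (1 + algebraMap E _ ((b : E) * 1) * τ) * (π (ty y A₁) * π (ty y B₁) * π U) := by
            linear_combination π U * h3
        _ = _ := by
            rw [hU']
            ring
    rw [map_sub, map_add]
    linear_combination h5 + algebraMap E _ ((l : E) * ((r : E) + 1)) *
      algebraMap E _ ((b : E) * 1) * hτ2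
  have h5 : (a : E) * 1 - (l * ((r : E) + 1) + b * 1) = 0 := by
    by_contra hne
    rw [hτ] at h4
    have h6 : algebraMap E (PowerSeries E ⧸ Ideal.span {(PowerSeries.X : PowerSeries E) ^ (r + 1)})
        ((a : E) * 1 - (l * ((r : E) + 1) + b * 1)) =
        π (PowerSeries.C ((a : E) * 1 - (l * ((r : E) + 1) + b * 1))) := (π.commutes _).symm
    rw [h6, ← map_mul, hker] at h4
    obtain ⟨K, hK⟩ := h4
    have h7 : PowerSeries.C ((a : E) * 1 - (l * ((r : E) + 1) + b * 1)) * H =
        PowerSeries.X * K := by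
      apply mul_left_cancel₀ (pow_ne_zero r (PowerSeries.X_ne_zero (R := E)))
      rw [← mul_assoc (PowerSeries.X ^ r) PowerSeries.X K, ← pow_succ, ← hK]
      ring
    have h8 := congrArg PowerSeries.constantCoeff h7
    rw [map_mul, map_mul, PowerSeries.constantCoeff_X, zero_mul, PowerSeries.constantCoeff_C] at h8
    exact mul_ne_zero hne hH h8
  have h6 : (a : E) = ((l * (r + 1) + b : ℕ) : E) := by
    push_cast
    linear_combination h5
  have h7 : a = l * (r + 1) + b := Nat.cast_injective h6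
  have h8 : l * 2 ≤ l * (r + 1) := Nat.mul_le_mul_left l (by omega)
  omega

end Pool.Agent.Q153.SU
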